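import Pool.Agent.Helper15.AF.Goals3

/-!
# Project AF: the generator, with proofs in words
-/

namespace Pool.Agent.Helper15.AF

open Pool.Agent.Helper81.CC Pool.Agent.Helper51.ZP Pool.Agent.Helper78.DT Pool.Agent.Helper78.JT
open Pool.Agent.Helper78.CG (Witnessed prob coins frac)
open scoped Classical

/-- **AFS.** Affine subspaces of small codimension are given by few equations.

Proof. If `B` is empty, `prob B = 0 < 1/2^C0`. Otherwise let `y0 ∈ B`, and let `W` be the set of the
vectors `(fun v => b2z (y v) + b2z (y0 v))`, `y ∈ B`, a subspace of `Fin n → ZMod 2` (sum of the vectors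
of `y`, `y'`: the vector of `y + y0 + y' ∈ B`; `0`: `y = y0`). `|B| = |W| = 2^(dim W)`, so
`prob B = 1/2^(n - dim W)`. If `C0 < n - dim W`, then `prob B < 1/2^C0`. Otherwise the space of the
linear forms `a` with `∑ a v w v = 0` for all `w ∈ W` has dimension `n - dim W ≤ C0`
(`Submodule.finrank_add_finrank_dualAnnihilator_eq` or similar); let `a 0, a 1, ...` be a basis of it,
followed by zero forms, and `c i = dot (a i) y0`. `W` is the set of the common zeros of the `a i`
(`Submodule.dualAnnihilator_dualCoannihilator_eq`, `Subspace...`), so `x ∈ B` iff the vector of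
`x + y0` is in `W` iff `dot (a i) x = c i` for all `i`. -/
def AfsStmt : Prop := ∀ (n C0 : ℕ) (B : Set (Fin n → Bool)), Affine B →
  prob B < 1 / 2 ^ C0 ∨ ∃ (a : Fin C0 → Fin n → ZMod 2) (c : Fin C0 → ZMod 2),
    ∀ x, x ∈ B ↔ ∀ i, dot (a i) x = c i

/-- **CLM.** From certified sets to lists and forms. (May assume `AfsStmt`; compare CGL:
`Pool.Agent.Helper32.CG.CGL`.)

Proof. Let `B` be as in `Certified`. For `j` with `Witnessed w (B j)` let `f j` be the list of all the
terms `T` with `T.card ≤ w` such that `Sat T x` implies `x ∈ B j`, with the label `true` (as in CGL: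
`ev (f j) x = true` iff `x ∈ B j`, and `ev ((f j).filter p) x = true` implies `x ∈ B j`); for the other `j`
let `f j = []`. Call `j` kept if `B j` is not witnessed and the second case of AFS holds, with forms
`a_(j,i)`, constants `c_(j,i)`, `i < C0`; the forms are numbered by `finProdFinEquiv : Fin r × Fin C0 ≃
Fin (r * C0)`, with zero forms if `j` is not kept. `H v p` says: for all `y'`, if `y' ∈ B j` for all
witnessed `j` with `v j = true` and for all kept `j` with `p (j,i) = c_(j,i)` for all `i`, then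
`y' ∈ A`. (1) If `H (...) (...)` holds for `x`, apply it to `y' = x`. (2) If `x ∈ A` is in no `B j`
which is neither witnessed nor kept, then `H (...) (...)` holds for `x` by the property of `A`; the
probability of each of these `B j` is `< 1/2^C0`; union bound (`pr_le_add_of_imp`, `pr_exists_le`, `pr_eq_card`
for `prob`). -/
def ClmStmt : Prop := ∀ (n w r C0 : ℕ) (A : Set (Fin n → Bool)), Certified w r A →
  ∃ (f : Fin r → DL (Fin n)) (a : Fin (r * C0) → Fin n → ZMod 2)
    (H : (Fin r → Bool) → (Fin (r * C0) → ZMod 2) → Bool), (∀ j, Wid w (f j)) ∧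
    (∀ (p : Tm (Fin n) × Bool → Bool) (x : Fin n → Bool),
      H (fun j => ev ((f j).filter p) x) (fun i => dot (a i) x) = true → x ∈ A) ∧
    prob A ≤ pr (fun x : Fin n → Bool => H (fun j => ev (f j) x) (fun i => dot (a i) x) = true) +
      (r : ℝ) / 2 ^ C0

/-- **DGM.** Counting seeds by their digits. (From DGJ: `Pool.Agent.Helper27.JT.dgj`.)

Proof. DGJ with `Z' = Q0 * Q0 * Z` for
`F' A i' s = F A (i' % Q0) (i' / Q0 % Q0) (i' / (Q0 * Q0)) s`, where `i' = i / P ^ u`. Then
`Fin (Q0 * Q0 * Z)` is in bijection with `(Fin Q0 × Fin Q0) × Fin Z` (the digits), and `i' / (Q0 * Q0)`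
is the last one if `i' < Q0 * Q0 * Z`. -/
def DgmStmt : Prop := ∀ (P Z Q0 Q u K : ℕ) (F : (ℕ → ℕ) → ℕ → ℕ → ℕ → (ℕ → ℕ) → Bool),
  (∀ (A A' s s' : ℕ → ℕ) (α β θ : ℕ), (∀ i < u, A i = A' i) → (∀ i < K, s i = s' i) →
    F A α β θ s = F A' α β θ s') →
  (∀ (A s : ℕ → ℕ) (α β θ : ℕ), F A α β θ s = F A α β (θ % Z) s) →
  (((List.range (P ^ u * (Q0 * Q0 * Z) * Q ^ K)).filter fun i =>
      F (dg P i) (i / P ^ u % Q0) (i / P ^ u / Q0 % Q0) (i / P ^ u / (Q0 * Q0))
        (dg Q (i / P ^ u / (Q0 * Q0 * Z)))).length : ℝ) =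
    ((P ^ u * (Q0 * Q0 * Z) * Q ^ K : ℕ) : ℝ) *
      pr fun z : (Fin u → Fin P) × (Fin Q0 × Fin Q0) × Fin Z × (Fin K → Fin Q) =>
        F (ext z.1) z.2.1.1 z.2.1.2 z.2.2.1 (ext z.2.2.2) = true

/-- **CAM.** The analysis of the generator. (May assume `TgmStmt`, `PmaStmt`, `PmbStmt`, `DgmStmt`,
`ClmStmt`; compare CGA: `Pool.Agent.Helper12.CG.CGA`.)

Proof. Let `c = c0 + c1`, take `a`, `β`, `L0` from PMA for `c`, `e` and `C`, `L0'` from PMB. Let
`L = lg N ≥ max`, `n ≤ N < 2^L`, and `f`, `a'`, `H` from CLM for `A`, `w = c1 L`, `C0 = C0j c L`; the width is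
`≤ c1 L ≤ WW (cM c) L`. `znm = ZZm` since `2^(C L) ≤ (4 N + 4)^C`. The assignment of the sample `i` is
`fun v : Fin n => bitm c a β e L i v` (`coins n ((List.range N).map f) = fun v => f v` for `n ≤ N`). By
DGM `frac (genm ...) A` is the probability, over the digits, that the assignment of TGM (with
`l = e`, `T = 2^(L+2)`, `kk = 8 L`, `e = L`) is in `A`. (`ch R d θ x (e+1)` depends only on
`θ % Zl R d (e+1)`, see APJ/CGA; the partition and the digits `s` as in APJ/CGA.) By CLM it is at least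
the probability that `H` of the filtered lists and of the forms is true, which by TGM and PMA is at
least `pr (H (ev f) (dot a') = true) - error ≥ prob A - r/2^C0 - error ≥ prob A - 1/(2 L^c)`. -/
def CamStmt : Prop := ∀ c1 c0 e : ℕ, ∃ a β C L0 : ℕ, ∀ (n N r : ℕ) (A : Set (Fin n → Bool)),
  n ≤ N → Certified (c1 * lg N) r A → r ^ (e + 1) ≤ lg N ^ e → L0 ≤ lg N →
    prob A - 1 / (lg N : ℝ) ^ c0 ≤ frac (genm (c0 + c1) a β e C N) A

/-- **CPM.** The samples are computed in polynomial time. (May assume `PtyStmt`; adapt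
`Pool.Agent.Helper75.CG.CGP`; the lemmas `ptj'`, `pKj`, `pPj`, `pDj`, `pch`, `pZl`, `ppt`, `phs`, ... are in
`Pool.Agent.Helper81.JT.PTJ` and its imports.)

Proof. `mj = Dj * 2 ^ tj` (`ppow2` for `1 * tj`). `Qk (8 L) = 2 ^ (8 L) - 1` with
`2 ^ (8 L) ≤ (4 N + 4)^8`; PTY for `k = 8 L`, `n = (4 N + 4)^8`. `ip` is the parity of the length of a
filtered list (`bt` as in `phs`: `y / 2 ^ i % 2`). The number `i / P^(t+2) / (Q0 * Q0 * Zl ...)` is
`(i / P^(t+2) / (Q0 * Q0)) / Zl ...` (`Nat.div_div_eq_div_mul`, `pZl`). -/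
def CpmStmt : Prop := ∀ c a β e C : ℕ, PolyTime fun N : ℕ => genm c a β e C N

/-- **CGM.** The generator. (May assume `CamStmt`, `CpmStmt`; adapt `Pool.Agent.Helper87.CG.CGG`; the
only change is the new definition of `Certified`.) -/
def CgmStmt : Prop := ∀ c e : ℕ, Generates c e

/-- **CDM.** Languages. (May assume `CgmStmt`; adapt `Pool.Agent.Helper89.CG.CGD`; the only change is
the new definition of `Certified`, monotone in `w`.) -/
def CdmStmt : Prop := ∀ (c e : ℕ) (L : Set (List Bool)), InP L ↔ Decided c e L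

end Pool.Agent.Helper15.AF
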