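import Pool.Agent.Helper26.AF.Goals

/-!
Project AF, packet CCN: number of components after deletion of an edge.
-/

set_option autoImplicit false

namespace Pool.Agent.Helper15.AF

open Pool.Agent.Helper26.AF

section

variable {V : Type} {G : SimpleGraph V} {u v : V}

theorem del_adj {y z : V} (h : G.Adj y z) (hne : s(y, z) ≠ s(u, v)) :
    (G.deleteEdges {s(u, v)}).Adj y z := by
  rw [SimpleGraph.deleteEdges_adj]
  exact ⟨h, by simpa using hne⟩

theorem reach_cases {x y : V} (h : G.Reachable x y) :
    (G.deleteEdges {s(u, v)}).Reachable x y ∨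
    ((G.deleteEdges {s(u, v)}).Reachable x u ∧ (G.deleteEdges {s(u, v)}).Reachable v y) ∨
    ((G.deleteEdges {s(u, v)}).Reachable x v ∧ (G.deleteEdges {s(u, v)}).Reachable u y) := by
  rw [SimpleGraph.reachable_iff_reflTransGen] at h
  induction h with
  | refl => exact Or.inl (SimpleGraph.Reachable.refl x)
  | @tail y z _ hyz ih =>
    by_cases he : s(y, z) = s(u, v)
    · rw [Sym2.eq_iff] at he
      rcases he with ⟨rfl, rfl⟩ | ⟨rfl, rfl⟩
      · rcases ih with h1 | ⟨h1, h2⟩ | ⟨h1, h2⟩
        · exact Or.inr (Or.inl ⟨h1, SimpleGraph.Reachable.refl _⟩)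
        · exact Or.inl (h1.trans h2.symm)
        · exact Or.inl h1
      · rcases ih with h1 | ⟨h1, h2⟩ | ⟨h1, h2⟩
        · exact Or.inr (Or.inr ⟨h1, SimpleGraph.Reachable.refl _⟩)
        · exact Or.inl h1
        · exact Or.inl (h1.trans h2.symm)
    · have hz : (G.deleteEdges {s(u, v)}).Reachable y z := (del_adj hyz he).reachable
      rcases ih with h1 | ⟨h1, h2⟩ | ⟨h1, h2⟩
      · exact Or.inl (h1.trans hz)
      · exact Or.inr (Or.inl ⟨h1, h2.trans hz⟩)
      · exact Or.inr (Or.inr ⟨h1, h2.trans hz⟩)

theorem del_le : G.deleteEdges {s(u, v)} ≤ G := SimpleGraph.deleteEdges_le _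

end

theorem goalCCN : StmtCCN := by
  classical
  intro V _ _ G u v huv
  set H := G.deleteEdges {s(u, v)} with hH
  have hle : H ≤ G := del_le
  let φ : H.ConnectedComponent → G.ConnectedComponent :=
    SimpleGraph.ConnectedComponent.map (SimpleGraph.Hom.ofLE hle)
  have hφ : ∀ x, φ (H.connectedComponentMk x) = G.connectedComponentMk x := fun x => rfl
  constructor
  · intro huv'
    refine Nat.card_eq_of_bijective φ ⟨?_, ?_⟩
    · intro c c' hcc
      induction c using SimpleGraph.ConnectedComponent.ind with
      | _ x =>
      induction c' using SimpleGraph.ConnectedComponent.ind with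
      | _ y =>
      rw [hφ, hφ, SimpleGraph.ConnectedComponent.eq] at hcc
      rw [SimpleGraph.ConnectedComponent.eq]
      rcases reach_cases (u := u) (v := v) hcc with h | ⟨h1, h2⟩ | ⟨h1, h2⟩
      · exact h
      · exact (h1.trans huv').trans h2
      · exact (h1.trans huv'.symm).trans h2
    · intro c
      induction c using SimpleGraph.ConnectedComponent.ind with
      | _ x => exact ⟨H.connectedComponentMk x, rfl⟩
  · intro huv'
    have h1 : Nat.card {c : H.ConnectedComponent // c ≠ H.connectedComponentMk v} =
        Nat.card G.ConnectedComponent := by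
      refine Nat.card_eq_of_bijective (fun c => φ c.1) ⟨?_, ?_⟩
      · rintro ⟨c, hc⟩ ⟨c', hc'⟩ hcc
        induction c using SimpleGraph.ConnectedComponent.ind with
        | _ x =>
        induction c' using SimpleGraph.ConnectedComponent.ind with
        | _ y =>
        simp only [hφ] at hcc
        rw [SimpleGraph.ConnectedComponent.eq] at hcc
        rw [Ne, SimpleGraph.ConnectedComponent.eq] at hc hc'
        rw [Subtype.mk.injEq, SimpleGraph.ConnectedComponent.eq]
        rcases reach_cases (u := u) (v := v) hcc with h | ⟨h1, h2⟩ | ⟨h1, h2⟩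
        · exact h
        · exact absurd h2.symm hc'
        · exact absurd h1 hc
      · intro c
        induction c using SimpleGraph.ConnectedComponent.ind with
        | _ x =>
        by_cases hx : H.connectedComponentMk x = H.connectedComponentMk v
        · refine ⟨⟨H.connectedComponentMk u, ?_⟩, ?_⟩
          · rw [Ne, SimpleGraph.ConnectedComponent.eq]
            exact huv'
          · change G.connectedComponentMk u = G.connectedComponentMk x
            rw [SimpleGraph.ConnectedComponent.eq] at hx ⊢
            exact huv.reachable.trans (hx.mono hle).symm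
        · exact ⟨⟨H.connectedComponentMk x, hx⟩, rfl⟩
    rw [← h1, ← Finite.card_option]
    exact (Nat.card_congr (Equiv.optionSubtypeNe (H.connectedComponentMk v))).symm

end Pool.Agent.Helper15.AF
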