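import Pool.Agent.Helper15.AF.CGM
import Pool.Agent.Helper89.CG.CGD

/-!
# Project AF, packet CDM: languages
-/

set_option autoImplicit false

namespace Pool.Agent.Helper15.AF

open Pool.Agent.Helper81.CC Pool.Agent.Helper51.ZP Pool.Agent.Helper31.TMSim
open Pool.Agent.Helper78.CG (Witnessed prob coins frac)
open Pool.Agent.Helper89.CG (prob_univ cl cl_eq acn frac_le_acn frac_le_acn')
open Pool.Agent.Helper83.CL Computability
open scoped Classical

theorem certified_univ (n w : ℕ) : Certified w 0 (Set.univ : Set (Fin n → Bool)) :=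
  ⟨fun _ => Set.univ, fun j => j.elim0, fun _ _ _ _ => Set.mem_univ _⟩

theorem cdm (hC : CgmStmt) : CdmStmt := by
  intro c e L
  constructor
  · intro hL
    obtain ⟨f, hf, h⟩ := PT_of_inP hL
    have hM : PolyTime (fun z : List Bool × List Bool => f z.1) :=
      PolyTime.comp hf (by fun_prop)
    refine ⟨fun _ => 0, fun z => f z.1, fun _ => 0,
      (PolyTime.const (α := List Bool) (0 : ℕ)).computable, hM.computable,
      (PolyTime.const (α := List Bool) (0 : ℕ)).computable, fun x => ?_⟩
    refine ⟨0, Set.univ, ?_, certified_univ _ _, fun hx => ⟨fun y _ => (h x).1 hx, ?_⟩,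
      fun hx => ⟨fun y _ => ?_, ?_⟩⟩
    · rw [zero_pow (Nat.succ_ne_zero e)]
      exact Nat.zero_le _
    · rw [prob_univ]
      have h1 : (1 : ℝ) ≤ ((Nat.log 2 x.length + 2 : ℕ) : ℝ) ^ c := by
        exact_mod_cast Nat.one_le_pow c _ (by omega)
      rw [Nat.cast_zero, zero_add]
      exact div_le_one_of_le₀ h1 (by positivity)
    · show f x = false
      rw [← Bool.not_eq_true, ← h x]
      exact hx
    · rw [prob_univ]
      simp
  · rintro ⟨m, M, g, hm, hM, hg, h0⟩
    obtain ⟨G, hG, hGa⟩ := hC (c + 2) e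
    have hmP : PolyTime m := Pool.Agent.Helper61.DT.PT_of_comp' hm
    have hMP : PolyTime M := Pool.Agent.Helper61.DT.PT_of_comp' hM
    have hgP : PolyTime g := Pool.Agent.Helper61.DT.PT_of_comp' hg
    have hGP : PolyTime G := Pool.Agent.Helper61.DT.PT_of_comp' hG
    have hlen : PolyTime (fun x : List Bool => x.length) := by fun_prop
    have hlog : PolyTime (fun x : List Bool => Nat.log 2 x.length) :=
      Pool.Agent.Helper61.DT.PT_log hlen
    have hN : PolyTime (fun x : List Bool => x.length + m x) := by fun_prop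
    have hGN : PolyTime (fun x : List Bool => G (x.length + m x)) := PolyTime.comp hGP hN
    have hcl : PolyTime (fun z : List Bool × List Bool => cl (m z.1) z.2) := by
      unfold cl
      have e1 : PolyTime (fun z : List Bool × List Bool => m z.1) :=
        PolyTime.comp hmP (by fun_prop)
      refine PolyTime.list_map (f := fun (z : List Bool × List Bool) (v : ℕ) => z.2.getD v false)
        (PolyTime.range e1) ?_
      fun_prop
    have hacc : PolyTime (fun z : List Bool × List Bool => M (z.1, cl (m z.1) z.2)) :=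
      PolyTime.comp (f := fun z : List Bool × List Bool => (z.1, cl (m z.1) z.2)) hMP
        (by fun_prop)
    have hacn : PolyTime (fun x : List Bool => acn (G (x.length + m x)) M (m x) x) := by
      unfold acn
      exact PolyTime.length (PolyTime.filter
        (f := fun (x : List Bool) (s : List Bool) => M (x, cl (m x) s)) hGN hacc)
    have hGl : PolyTime (fun x : List Bool => (G (x.length + m x)).length) :=
      PolyTime.length hGN
    have hdec : PolyTime fun x : List Bool =>
        decide ((2 * g x + 1) * (G (x.length + m x)).length <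
          2 * (Nat.log 2 x.length + 2) ^ c * acn (G (x.length + m x)) M (m x) x) := by fun_prop
    refine inP_of_PT hdec fun x => ?_
    rw [decide_eq_true_iff]
    obtain ⟨r, A, hr, hA, hx1, hx2⟩ := h0 x
    obtain ⟨-, hgen⟩ := hGa (x.length + m x)
    obtain ⟨l, hl⟩ : ∃ l : ℕ, l = Nat.log 2 x.length + 2 := ⟨_, rfl⟩
    obtain ⟨l', hl'⟩ : ∃ l' : ℕ, l' = Nat.log 2 (x.length + m x) + 2 := ⟨_, rfl⟩
    have hlogle : Nat.log 2 x.length ≤ Nat.log 2 (x.length + m x) :=
      Nat.log_mono_right (by omega)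
    have hll : l ≤ l' := by omega
    have hll' : (l : ℝ) ≤ l' := by exact_mod_cast hll
    have hl2 : (2 : ℝ) ≤ l := by
      have : 2 ≤ l := by omega
      exact_mod_cast this
    have hl2' : (2 : ℝ) ≤ l' := hl2.trans hll'
    have hlc : (0 : ℝ) < (l : ℝ) ^ c := by positivity
    have hL : (0 : ℝ) < (l' : ℝ) ^ (c + 2) := by positivity
    -- the generator is not empty
    have hG0 : 0 < (G (x.length + m x)).length := by
      rcases Nat.eq_zero_or_pos (G (x.length + m x)).length with h | h
      · exfalso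
        have h1 := hgen (m x) 0 Set.univ (by omega) (by
          rw [zero_pow (Nat.succ_ne_zero e)]; exact Nat.zero_le _) (certified_univ _ _)
        rw [prob_univ, ← hl'] at h1
        unfold frac at h1
        rw [h, Nat.cast_zero, div_zero] at h1
        have h2 : (1 : ℝ) < (l' : ℝ) ^ (c + 2) := one_lt_pow₀ (by linarith) (by omega)
        have h3 : (1 : ℝ) / (l' : ℝ) ^ (c + 2) < 1 := (div_lt_one hL).2 h2
        linarith
      · exact h
    have hG0' : (0 : ℝ) < ((G (x.length + m x)).length : ℝ) := by exact_mod_cast hG0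
    have key := hgen (m x) r A (by omega) (hr.trans (Nat.pow_le_pow_left (by omega) e))
      (certified_mono (Nat.mul_le_mul (by omega) (by omega)) hA)
    rw [← hl'] at key
    rw [← hl] at hx1 hx2 ⊢
    have h4 : 4 * (l : ℝ) ^ c ≤ (l' : ℝ) ^ (c + 2) := by
      rw [pow_add]
      have a1 : (l : ℝ) ^ c ≤ (l' : ℝ) ^ c := by gcongr
      have a2 : (4 : ℝ) ≤ (l' : ℝ) ^ 2 := by nlinarith
      calc 4 * (l : ℝ) ^ c = (l : ℝ) ^ c * 4 := by ring
        _ ≤ (l' : ℝ) ^ c * (l' : ℝ) ^ 2 := mul_le_mul a1 a2 (by norm_num) (by positivity)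
    have h5 : 1 / (l' : ℝ) ^ (c + 2) ≤ 1 / (4 * (l : ℝ) ^ c) :=
      one_div_le_one_div_of_le (by positivity) h4
    obtain ⟨k, hk⟩ : ∃ k : ℕ, k = acn (G (x.length + m x)) M (m x) x := ⟨_, rfl⟩
    obtain ⟨n, hn⟩ : ∃ n : ℕ, n = (G (x.length + m x)).length := ⟨_, rfl⟩
    rw [← hk, ← hn]
    rw [← hn] at hG0'
    have q1 : (k : ℝ) / n * n = k := by field_simp
    constructor
    · intro hxL
      obtain ⟨g1, g2⟩ := hx1 hxL
      have g3 := frac_le_acn (G := G (x.length + m x)) g1
      rw [← hk, ← hn] at g3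
      have g4 : ((g x : ℝ) + 1) / (l : ℝ) ^ c - 1 / (4 * (l : ℝ) ^ c) ≤ (k : ℝ) / n := by linarith
      have g5 : ((g x : ℝ) + 1) / (l : ℝ) ^ c - 1 / (4 * (l : ℝ) ^ c) =
          (g x + 3 / 4) / (l : ℝ) ^ c := by
        field_simp
        ring
      rw [g5, div_le_iff₀ hlc] at g4
      have g6 := mul_le_mul_of_nonneg_right g4 hG0'.le
      have g7 : (k : ℝ) / n * (l : ℝ) ^ c * n = k * (l : ℝ) ^ c := by
        rw [mul_right_comm, q1]
      rw [g7] at g6
      have g8 : (2 * (g x : ℝ) + 1) * n < 2 * (l : ℝ) ^ c * k := by nlinarith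
      exact_mod_cast g8
    · intro hd
      by_contra hxL
      obtain ⟨g1, g2⟩ := hx2 hxL
      have g3 := frac_le_acn' (G := G (x.length + m x)) g1 hG0
      rw [← hk, ← hn] at g3
      have g4 : (k : ℝ) / n ≤ (g x : ℝ) / (l : ℝ) ^ c + 1 / (4 * (l : ℝ) ^ c) := by linarith
      have g5 : (g x : ℝ) / (l : ℝ) ^ c + 1 / (4 * (l : ℝ) ^ c) =
          (g x + 1 / 4) / (l : ℝ) ^ c := by
        field_simp
      rw [g5, le_div_iff₀ hlc] at g4
      have g6 := mul_le_mul_of_nonneg_right g4 hG0'.le
      have g7 : (k : ℝ) / n * (l : ℝ) ^ c * n = k * (l : ℝ) ^ c := by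
        rw [mul_right_comm, q1]
      rw [g7] at g6
      have g8 : (2 * (g x : ℝ) + 1) * n < 2 * (l : ℝ) ^ c * k := by exact_mod_cast hd
      nlinarith

end Pool.Agent.Helper15.AF
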