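import Pool.Agent.Helper15.AF.Goals4
import Pool.Agent.Helper87.CG.CGG

/-!
# Project AF, packet CGM: the generator
-/

namespace Pool.Agent.Helper15.AF

open Pool.Agent.Helper81.CC Pool.Agent.Helper51.ZP Pool.Agent.Helper78.DT Pool.Agent.Helper78.JT
open Pool.Agent.Helper78.CG (Witnessed prob coins frac)
open Pool.Agent.Helper87.CG (witnessed_mono brute frac_brute pt_brute)
open scoped Classical

theorem certified_mono {n w w' r : ℕ} (h : w ≤ w') {A : Set (Fin n → Bool)}
    (hA : Certified w r A) : Certified w' r A := by
  obtain ⟨B, h1, h2⟩ := hA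
  exact ⟨B, fun j => (h1 j).imp (fun hw => witnessed_mono h hw) id, h2⟩

theorem cgm (hCam : CamStmt) (hCpm : CpmStmt) : CgmStmt := by
  intro c e
  obtain ⟨a, β, C, L0, hG⟩ := hCam c c e
  refine ⟨fun N => if L0 ≤ lg N then genm (c + c) a β e C N else brute N (2 ^ L0), ?_, ?_⟩
  · apply PolyTime.computable
    have hPtl : PtlStmt := Pool.Agent.Helper3.DT.ptl
    have hlg : PolyTime (fun x : ℕ => lg x) :=
      (hPtl ℕ (fun x => x) (fun x => x) (fun x => x) (by fun_prop) (by fun_prop) (by fun_prop)).1
    exact PolyTime.itep (PolyTime.decide_le (PolyTime.const _) hlg) (hCpm _ _ _ _ _) (pt_brute _)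
  · intro N
    have hlN : Nat.log 2 N + 2 = lg N := rfl
    rw [hlN]
    by_cases hN : L0 ≤ lg N
    · simp only [if_pos hN]
      constructor
      · intro s hs
        unfold genm at hs
        rw [List.mem_map] at hs
        obtain ⟨i, _, rfl⟩ := hs
        simp
      · intro n r A hn hr hA
        exact hG n N r A hn (certified_mono (by
          apply Nat.mul_le_mul_left
          unfold lg
          omega) hA) hr hN
    · simp only [if_neg hN]
      constructor
      · intro s hs
        unfold brute at hs
        rw [List.mem_map] at hs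
        obtain ⟨i, _, rfl⟩ := hs
        simp
      · intro n r A hn hr hA
        have hNM : N ≤ 2 ^ L0 := by
          have h1 : N < 2 ^ (Nat.log 2 N + 1) := Nat.lt_pow_succ_log_self (by norm_num) N
          have h2 : 2 ^ (Nat.log 2 N + 1) ≤ 2 ^ L0 := Nat.pow_le_pow_right (by norm_num) (by
            unfold lg at hN
            omega)
          omega
        rw [frac_brute hn hNM]
        have : (0 : ℝ) ≤ 1 / (lg N : ℕ) ^ c := by positivity
        linarith

end Pool.Agent.Helper15.AF
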