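import Pool.Agent.Helper78.CG.Defs

/-!
# Randomized algorithms whose outcome is witnessed by few coins or by linear equations

Turing machines are Mathlib's multi-stack machines; `PolyTimeComputable` is in
`Pool.Agent.Helper81.CxDefs`, the coding `encOf` of structured data (with numbers in unary) is in
`Pool.Agent.Helper81.CxData`, and `InP` is in `Pool.Agent.Helper51.ZP.Defs`. The predicate
`Witnessed`, the probability `prob` and the frequency `frac` are in `Pool.Agent.Helper78.CG.Defs`.
-/

namespace Pool.Agent.Helper15.AF

open Pool.Agent.Helper81.CC Pool.Agent.Helper78.CG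
open scoped Classical

/-- The set `B` of coin strings is an affine subspace over the field with two elements (or empty):
it is closed under the sums `y₁ + y₂ + y₃`. -/
def Affine {n : ℕ} (B : Set (Fin n → Bool)) : Prop :=
  ∀ y₁ ∈ B, ∀ y₂ ∈ B, ∀ y₃ ∈ B, (fun v => xor (y₁ v) (xor (y₂ v) (y₃ v))) ∈ B

/-- The set `A` of coin strings is certified by `r` sets `B 0, ..., B (r - 1)`, each of which is an
affine subspace or has only elements with witnesses of size `≤ w`: if `y` is in `A`, and if `y'` is
in all those `B j` which contain `y`, then `y'` is in `A`. (That is, `A` is a union of intersections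
of some of the sets `B j`.) -/
def Certified {n : ℕ} (w r : ℕ) (A : Set (Fin n → Bool)) : Prop :=
  ∃ B : Fin r → Set (Fin n → Bool), (∀ j, Witnessed w (B j) ∨ Affine (B j)) ∧
    ∀ y ∈ A, ∀ y', (∀ j, y ∈ B j → y' ∈ B j) → y' ∈ A

/-- There is a deterministic polynomial-time pseudorandom generator: a list `G N` of strings of
length `N`, computable in time polynomial in `N`, in which every set `A` of coin strings of any
length `n ≤ N` has at least the frequency `prob A - 1 / (log₂ N + 2) ^ c`, if `A` is certified by at
most `(log₂ N + 2) ^ (e / (e + 1))` sets which are affine subspaces or whose elements have witnesses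
of size `c (log₂ N + 1)`. -/
def Generates (c e : ℕ) : Prop :=
  ∃ G : ℕ → List (List Bool),
    PolyTimeComputable (encOf ℕ) (encOf (List (List Bool))) G ∧
    ∀ N, (∀ s ∈ G N, s.length = N) ∧
      ∀ (n r : ℕ) (A : Set (Fin n → Bool)), n ≤ N → r ^ (e + 1) ≤ (Nat.log 2 N + 2) ^ e →
        Certified (c * (Nat.log 2 N + 1)) r A →
          prob A - 1 / (Nat.log 2 N + 2 : ℕ) ^ c ≤ frac (G N) A

/-- The language `L` is decided, with gap `1 / (log₂ |x| + 2) ^ c`, by a randomized polynomial-time
algorithm with few coins or linear equations as witnesses. `M (x, y)` is the answer on the input `x`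
with the coin string `y` of length `m x`; `m`, `M` and `g` are computable in polynomial time. For each
`x` there is a certified set `A` of coin strings with the following property. If `x ∈ L`, then
`M (x, y) = true` for all `y ∈ A`, and the probability of `A` is at least
`(g x + 1) / (log₂ |x| + 2) ^ c`. If `x ∉ L`, then `M (x, y) = false` for all `y ∈ A`, and the
probability of `A` is at least `1 - g x / (log₂ |x| + 2) ^ c`. -/
def Decided (c e : ℕ) (L : Set (List Bool)) : Prop :=
  ∃ (m : List Bool → ℕ) (M : List Bool × List Bool → Bool) (g : List Bool → ℕ),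
    PolyTimeComputable (encOf (List Bool)) (encOf ℕ) m ∧
    PolyTimeComputable (encOf (List Bool × List Bool)) (encOf Bool) M ∧
    PolyTimeComputable (encOf (List Bool)) (encOf ℕ) g ∧
    ∀ x, ∃ (r : ℕ) (A : Set (Fin (m x) → Bool)), r ^ (e + 1) ≤ (Nat.log 2 x.length + 2) ^ e ∧
      Certified (c * (Nat.log 2 x.length + 1)) r A ∧
      (x ∈ L → (∀ y ∈ A, M (x, List.ofFn y) = true) ∧
        ((g x : ℝ) + 1) / (Nat.log 2 x.length + 2 : ℕ) ^ c ≤ prob A) ∧
      (x ∉ L → (∀ y ∈ A, M (x, List.ofFn y) = false) ∧
        1 - (g x : ℝ) / (Nat.log 2 x.length + 2 : ℕ) ^ c ≤ prob A)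

end Pool.Agent.Helper15.AF
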