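import Pool.Agent.Helper78.CG.Final
import Pool.Agent.Helper51.ZP.Main
import Pool.Agent.Helper15.AF.Defs

/-!
# Project AF (MP_34c247_lc): the generator for lists and linear forms; definitions

Notation of DT and JT: `DL`, `ev`, `Wid`, `vars`, `Bad`, `ren`, `pr`, `av`, `hs`, `pv`, `pt`, `dg`,
`ext` are in `DT/Core.lean`, `BadJ`, `varsJ`, `ch`, `Zl` and the parameters `tj`, `Uj`, ... in
`JT/Num.lean`, `bal` in `DT/Goals3.lean`; `b2z`, `stp` in `ZP/Lfsr.lean`, `sg` in `ZP/Viola.lean`.
-/

namespace Pool.Agent.Helper15.AF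

open Pool.Agent.Helper51.ZP Pool.Agent.Helper78.DT Pool.Agent.Helper78.JT
open scoped Classical

/-! ### The small-bias strings: arithmetic progressions in a shift register sequence -/

/-- `Q = 2 ^ k - 1`, the period of the register. -/
def Qk (k : ℕ) : ℕ := 2 ^ k - 1

/-- The vector of the first `k` binary digits of `i`. -/
def vk (k i : ℕ) : List Bool := (List.range k).map fun j => decide (i / 2 ^ j % 2 = 1)

/-- The first state `(1, 0, ..., 0)`. -/
def s0 (k : ℕ) : List Bool := (List.range k).map fun i => decide (i = 0)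

/-- The register with the feedback vector `c` has the full period: it comes back to `s0 k` after
`2 ^ k - 1` steps, and not earlier. -/
def full (k : ℕ) (c : List Bool) : Bool :=
  decide ((stp c)^[Qk k] (s0 k) = s0 k) &&
    (List.range (Qk k)).all fun i => decide (i = 0 ∨ (stp c)^[i] (s0 k) ≠ s0 k)

/-- The first feedback vector of length `k` with the full period. -/
def findc (k : ℕ) : List Bool :=
  vk k (((List.range (2 ^ k)).find? fun i => full k (vk k i)).getD 0)

/-- The bit `j` of the string with the seeds `α`, `β`, for the feedback vector `c`. -/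
def yc (k : ℕ) (c : List Bool) (α β j : ℕ) : Bool :=
  ((stp c)^[(β + α * j) % Qk k] (s0 k)).headD false

/-- The small-bias string with the seeds `α`, `β`. -/
def Yf (k α β j : ℕ) : Bool := yc k (findc k) α β j

/-! ### Linear forms -/

section
variable {n P m r ρ : ℕ}

/-- The value of the linear form with the coefficients `a` at the coin string `x`. -/
def dot (a : Fin n → ZMod 2) (x : Fin n → Bool) : ZMod 2 := ∑ v, a v * b2z (x v)

/-- The linear combination of the vectors `a i` with the coefficients `l i`. -/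
def comb (a : Fin ρ → Fin n → ZMod 2) (l : Fin ρ → ZMod 2) : Fin n → ZMod 2 :=
  fun v => ∑ i, l i * a i v

/-- The indicator vector of `S`. -/
def ind (S : Finset (Fin n)) : Fin n → ZMod 2 := fun v => if v ∈ S then 1 else 0

/-- The number of the coordinates `≠ 0`. -/
def wz (c : Fin n → ZMod 2) : ℕ := (Finset.univ.filter fun v => c v ≠ 0).card

/-- The hashed vector: the coordinate `u` is the sum of the coordinates `v` with the hash value
`u`. -/
def hv (P e w : ℕ) (c : Fin n → ZMod 2) : Fin P → ZMod 2 :=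
  fun u => ∑ v : Fin n, if hs P e w v = (u : ℕ) then c v else 0

/-- The transposed Hankel matrix of `Y`, applied to `c`. -/
def tm (Y : ℕ → Bool) (m : ℕ) (c : Fin n → ZMod 2) : Fin m → ZMod 2 :=
  fun i => ∑ j : Fin n, c j * b2z (Y (j + i))

/-- The bit `i` of the number `y`. -/
def bt (y i : ℕ) : Bool := decide (y / 2 ^ i % 2 = 1)

/-- The scalar product of the first `m` bits of `y` with `Y j, Y (j + 1), ...`. -/
def ip (Y : ℕ → Bool) (m y j : ℕ) : Bool :=
  decide (((List.range m).filter fun i => bt y i && Y (j + i)).length % 2 = 1)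

/-- The coin `v`, for the strings `ζ`, `u` (bits of numbers) and the hash parameter `w`. -/
def gb (Y : ℕ → Bool) (m P e ζ u w v : ℕ) : Bool := xor (ip Y m ζ (hs P e w v)) (ip Y m u v)

/-- The coin `v`: `h` is the partition, `z a` the number (string) `a` of the pool, and `s j` codes,
for the part `j`, two indices `< q` and the hash parameter `< P`. -/
def cnm (Y : ℕ → Bool) (m P e q : ℕ) (z h s : ℕ → ℕ) (v : ℕ) : Bool :=
  gb Y m P e (z (s (h v) / (q * P))) (z (s (h v) / P % q)) (s (h v) % P) v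

/-- The cell `u` is in the support of a light vector `hv P e w (comb a l)`. -/
def TW (P e D w : ℕ) (a : Fin ρ → Fin n → ZMod 2) (u : Fin P) : Prop :=
  ∃ l, wz (hv P e w (comb a l)) ≤ D ∧ hv P e w (comb a l) u ≠ 0

/-- The names which are often hashed to the cells `TW`. -/
noncomputable def VV (P e D : ℕ) (μ : ℝ) (a : Fin ρ → Fin n → ZMod 2) : Finset (Fin n) :=
  Finset.univ.filter fun v => μ < pr fun w : Fin P => ∃ u : Fin P, TW P e D w a u ∧ hs P e w v = u

/-- The string `Y` is good for the linear forms `a`. -/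
def GoodY (Y : ℕ → Bool) (m P e D : ℕ) (μ : ℝ) (a : Fin ρ → Fin n → ZMod 2) : Prop :=
  (∀ (l : Fin ρ → ZMod 2) (S : Finset (Fin n)), S ⊆ VV P e D μ a → S.card ≤ D →
    comb a l + ind S ≠ 0 → tm Y m (comb a l + ind S) ≠ 0) ∧
  ∀ w < P, ∀ (l : Fin ρ → ZMod 2) (U : Finset (Fin P)), U.card ≤ D →
    hv P e w (comb a l) + ind U ≠ 0 → tm Y m (hv P e w (comb a l) + ind U) ≠ 0

/-- The hash parameter `w` is good for the set `S` of names. -/
def GoodW (P e D w : ℕ) (μ : ℝ) (a : Fin ρ → Fin n → ZMod 2) (S : Set (Fin n)) : Prop :=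
  Set.InjOn (fun v : Fin n => hs P e w v) S ∧
  ∀ v ∈ S, v ∉ VV P e D μ a → ∀ u : Fin P, TW P e D w a u → hs P e w v ≠ u

/-! ### Tests -/

/-- A test: a Boolean function of the values of the lists `g j`, of the exceptional event, and of
the values of the affine forms `a i`, `c i`. -/
def ts (F : (Fin r → Bool) → Bool → (Fin ρ → ZMod 2) → Bool) (t : ℕ) (k : ℝ)
    (g : Fin r → DL (Fin n)) (a : Fin ρ → Fin n → ZMod 2) (c : Fin ρ → ZMod 2)
    (x : Fin n → Bool) : Prop :=
  F (fun j => ev (g j) x) (decide (BadJ t k g x)) (fun i => dot (a i) x + c i) = true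

/-- The two ends of the bracket: the value is `b` if the exceptional event happens. -/
def Fb (H : (Fin r → Bool) → (Fin ρ → ZMod 2) → Bool) (b : Bool) :
    (Fin r → Bool) → Bool → (Fin ρ → ZMod 2) → Bool := fun v bad p => if bad then b else H v p

/-- The numbers `z 0, ..., z (q - 1)` are good for the tests in the first string. -/
def GoodA (Y : ℕ → Bool) (m P e q t s : ℕ) (k δ : ℝ)
    (F : (Fin r → Bool) → Bool → (Fin ρ → ZMod 2) → Bool) (a : Fin ρ → Fin n → ZMod 2)
    (z : ℕ → ℕ) : Prop :=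
  ∀ w < P, ∀ (g : Fin r → DL (Fin P)) (c : Fin ρ → ZMod 2),
    (∀ j, Wid t (g j) ∧ (g j).length ≤ s) →
    |pr (fun i : Fin q => ts F t k g (fun i => hv P e w (a i)) c fun u => ip Y m (z i) u) -
      pr (fun y : Fin (2 ^ m) => ts F t k g (fun i => hv P e w (a i)) c fun u => ip Y m y u)| ≤ δ

/-- The probability of a test, for a uniform first string and the second string `u`. -/
noncomputable def th (Y : ℕ → Bool) (m P e w t : ℕ) (k : ℝ)
    (F : (Fin r → Bool) → Bool → (Fin ρ → ZMod 2) → Bool) (g : Fin r → DL (Fin n))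
    (a : Fin ρ → Fin n → ZMod 2) (c : Fin ρ → ZMod 2) (u : ℕ) : ℝ :=
  pr fun y : Fin (2 ^ m) => ts F t k g a c fun v => gb Y m P e y u w v

/-- The numbers `z 0, ..., z (q - 1)` are good for the tests in the second string. -/
def GoodB (Y : ℕ → Bool) (m P e q t s D : ℕ) (k δ μ : ℝ)
    (F : (Fin r → Bool) → Bool → (Fin ρ → ZMod 2) → Bool) (a : Fin ρ → Fin n → ZMod 2)
    (z : ℕ → ℕ) : Prop :=
  ∀ w < P, ∀ (g : Fin r → DL (Fin n)) (c : Fin ρ → ZMod 2),
    (∀ j, Wid t (g j) ∧ (g j).length ≤ s) → GoodW P e D w μ a (varsJ g) →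
    |av (fun i : Fin q => th Y m P e w t k F g a c (z i)) -
      av (fun u : Fin (2 ^ m) => th Y m P e w t k F g a c u)| ≤ δ

/-- Changing the signs of the literals according to `s`. -/
noncomputable def flp (s : Fin n → Bool) (f : DL (Fin n)) : DL (Fin n) :=
  f.map fun e => (e.1.image fun p => (p.1, xor p.2 (s p.1)), e.2)

/-- The hash function as a map to `Fin P`. -/
def hF (P e w : ℕ) (hP : 0 < P) (v : Fin n) : Fin P := ⟨hs P e w v, Nat.mod_lt _ hP⟩

end

/-! ### Errors -/

/-- the failure probability of `GoodY` for one tuple of forms -/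
noncomputable def errY (P m ρ D kV T Q : ℕ) : ℝ :=
  (2 ^ ρ * ((kV : ℝ) + 1) ^ D + P * (2 ^ ρ * ((P : ℝ) + 1) ^ D)) * (1 / 2 ^ m + (T + 1) / Q)

/-- the number of the tests -/
noncomputable def errI (P r s t ρ D kV J : ℕ) : ℝ :=
  P * ((2 * (2 * (P : ℝ) + 1) ^ t + 1) ^ (s * r) * (2 ^ ρ * (((kV : ℝ) + 1) ^ D * J)))

/-- the error for one part -/
noncomputable def errP (P m e D J R r s t l : ℕ) (η κ δ μ : ℝ) : ℝ :=
  2 * ((l + 1) * δ + 2 ^ m / R) + 1 / J + ((D : ℝ) ^ 2 * e / P + D * μ) +
    r * ((s + 1) * (κ ^ (1 - η) * (2 / η) ^ t))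

/-! ### The parameters (functions of `L = lg N`; `c` is the exponent of the error) -/

/-- the constant of the old parameters -/
def cM (c : ℕ) : ℕ := 2 * c + 10

/-- the length of the strings -/
def mj (a e L : ℕ) : ℕ := Dj a e L * 2 ^ tj a e L

/-- the number of the equations of one affine subspace -/
def C0j (c L : ℕ) : ℕ := (c + 2) * (Nat.log 2 L + 1)

/-- the frequency in `VV` -/
noncomputable def μj (c L : ℕ) : ℝ := 1 / (L : ℝ) ^ (c + 4)

/-- the number of the thresholds -/
def Jj (c L : ℕ) : ℕ := L ^ (c + 3)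

/-- the bound for the number of the elements of `VV` -/
def kVj (c L : ℕ) : ℕ := 2 * L ^ (c + 6)

/-- The bit `v` of the sample number `i`. -/
def bitm (c a β e L i v : ℕ) : Bool :=
  cnm (Yf (8 * L) (i / Pj (cM c) L ^ (tj a e L + 2) % Qk (8 * L))
      (i / Pj (cM c) L ^ (tj a e L + 2) / Qk (8 * L) % Qk (8 * L)))
    (mj a e L) (Pj (cM c) L) L (qj (cM c) L)
    (fun x => ch (Rj a e L) (dj a e L)
      (i / Pj (cM c) L ^ (tj a e L + 2) / (Qk (8 * L) * Qk (8 * L))) x (e + 1))
    (pt (Pj (cM c) L) (Kj (cM c) a β e L) (tj a e L) L (dg (Pj (cM c) L) i))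
    (dg (qj (cM c) L * (qj (cM c) L * Pj (cM c) L))
      (i / Pj (cM c) L ^ (tj a e L + 2) /
        (Qk (8 * L) * Qk (8 * L) * Zl (Rj a e L) (dj a e L) (e + 1)))) v

/-- The number of the seeds. -/
def ZZm (c a β e L : ℕ) : ℕ :=
  Pj (cM c) L ^ (tj a e L + 2) *
    (Qk (8 * L) * Qk (8 * L) * Zl (Rj a e L) (dj a e L) (e + 1)) *
    (qj (cM c) L * (qj (cM c) L * Pj (cM c) L)) ^ Kj (cM c) a β e L

/-- The number of the seeds, computed with powers cut off at `cap`. -/
def Zcm (cap c a β e L : ℕ) : ℕ :=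
  cpw cap (Pj (cM c) L) (tj a e L + 2) *
    (Qk (8 * L) * Qk (8 * L) * Zlc cap (Rj a e L) (dj a e L) (e + 1)) *
    cpw cap (qj (cM c) L * (qj (cM c) L * Pj (cM c) L)) (Kj (cM c) a β e L)

/-- The number of the samples. -/
def znm (c a β e C N : ℕ) : ℕ := Zcm ((4 * N + 4) ^ C) c a β e (lg N)

/-- The list of the samples. -/
def genm (c a β e C N : ℕ) : List (List Bool) :=
  (List.range (znm c a β e C N)).map fun i => (List.range N).map (bitm c a β e (lg N) i)

end Pool.Agent.Helper15.AF
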