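import Mathlib.Logic.Equiv.Fin.Basic
import Pool.Agent.Helper15.AF.Defs

/-!
# Functions of predicates which are parities or whose values are forced by few coins
-/

namespace Pool.Agent.Helper15.AF

open Pool.Agent.Helper78.CG

/-- Let `H` be any Boolean function, and let `f j`, `j < r`, be predicates such that each value
`f j y` is forced by at most `w` of the coins of `y`, or `f j` is an affine function over `F_2` (the
parity of some of the coins, or its negation). Then the set of the `y` with
`H (f 0 y, ..., f (r - 1) y) = true` is certified by `2 r` sets which are affine subspaces or whose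
elements have witnesses of size `≤ w`. (The same holds for its complement, since `¬ H` is another
function.) -/
theorem certified_of_forced {n w r : ℕ} (f : Fin r → (Fin n → Bool) → Bool)
    (H : (Fin r → Bool) → Bool)
    (hf : ∀ j, (∀ y, ∃ Q : Finset (Fin n), Q.card ≤ w ∧
        ∀ y' : Fin n → Bool, (∀ v ∈ Q, y' v = y v) → f j y' = f j y) ∨
      ∀ y₁ y₂ y₃ : Fin n → Bool, f j (fun v => xor (y₁ v) (xor (y₂ v) (y₃ v))) =
        xor (f j y₁) (xor (f j y₂) (f j y₃))) :
    Certified w (2 * r) {y | H (fun j => f j y) = true} := by
  refine ⟨fun i => {y | f (finProdFinEquiv.symm i).2 y =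
    decide ((finProdFinEquiv.symm i).1 = 1)}, ?_, ?_⟩
  · intro i
    rcases hf (finProdFinEquiv.symm i).2 with hw | ha
    · left
      intro y hy
      obtain ⟨Q, hQ, h⟩ := hw y
      refine ⟨Q, hQ, fun y' h' => ?_⟩
      have h1 := h y' h'
      simp only [Set.mem_setOf_eq] at hy ⊢
      rw [h1, hy]
    · right
      intro y₁ h₁ y₂ h₂ y₃ h₃
      simp only [Set.mem_setOf_eq] at h₁ h₂ h₃ ⊢
      rw [ha, h₁, h₂, h₃]
      simp
  · intro y hy y' h
    simp only [Set.mem_setOf_eq] at hy ⊢
    have key : (fun j => f j y') = fun j => f j y := by
      funext j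
      have h1 := h (finProdFinEquiv (if f j y = true then 1 else 0, j))
      simp only [Set.mem_setOf_eq, Equiv.symm_apply_apply] at h1
      by_cases h2 : f j y = true
      · simp only [h2, if_true, decide_true, forall_const] at h1
        rw [h2]
        exact h1
      · have h3 : f j y = false := by simpa using h2
        simp only [h3] at h1
        rw [h3]
        simpa using h1
    rw [key]
    exact hy

/-- Every affine subspace is certified by one set, in the sense of `Certified`, for every `w`. -/
theorem certified_of_affine {n w : ℕ} {B : Set (Fin n → Bool)} (hB : Affine B) :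
    Certified w 1 B :=
  ⟨fun _ => B, fun _ => Or.inr hB, fun _ hy _ h => h 0 hy⟩

end Pool.Agent.Helper15.AF
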