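import Pool.Agent.Helper15.AF.Goals2
import Pool.Agent.Helper40.JT.STR
import Pool.Agent.Helper42.JT.CHN
import Pool.Agent.Helper39.JT.SMP

/-!
# Project AF, packet GBP: the pool is good for the tests in the second string
-/

namespace Pool.Agent.Helper15.AF

open Pool.Agent.Helper81.CC Pool.Agent.Helper51.ZP Pool.Agent.Helper78.DT Pool.Agent.Helper78.JT
open scoped Classical

/-- The number of the subsets with at most `D` elements. -/
theorem card_small_subsets {α : Type} [DecidableEq α] (V : Finset α) (D : ℕ) :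
    (V.powerset.filter fun T => T.card ≤ D).card ≤ (V.card + 1) ^ D := by
  let g : (Fin D → Option V) → Finset α := fun φ =>
    V.filter fun v => ∃ i, ∃ h : v ∈ V, φ i = some ⟨v, h⟩
  have hsub : (V.powerset.filter fun T => T.card ≤ D) ⊆ Finset.univ.image g := by
    intro T hT
    rw [Finset.mem_filter, Finset.mem_powerset] at hT
    obtain ⟨hTV, hTD⟩ := hT
    rw [Finset.mem_image]
    let φ : Fin D → Option V := fun i =>
      if h : (i : ℕ) < T.toList.length then
        some ⟨T.toList[(i : ℕ)], hTV (Finset.mem_toList.1 (List.getElem_mem h))⟩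
      else none
    refine ⟨φ, Finset.mem_univ _, ?_⟩
    ext v
    simp only [g, Finset.mem_filter]
    constructor
    · rintro ⟨hv, i, h, hi⟩
      simp only [φ] at hi
      split_ifs at hi with hl
      have h2 : T.toList[(i : ℕ)] = v := by
        have := Option.some.inj hi
        exact congrArg Subtype.val this
      rw [← h2]
      exact Finset.mem_toList.1 (List.getElem_mem hl)
    · intro hv
      refine ⟨hTV hv, ?_⟩
      obtain ⟨i, hi, hiv⟩ := List.mem_iff_getElem.1 (Finset.mem_toList.2 hv)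
      have hlen : T.toList.length = T.card := Finset.length_toList T
      refine ⟨⟨i, by omega⟩, hTV hv, ?_⟩
      simp only [φ]
      rw [dif_pos hi]
      congr 1
      exact Subtype.ext hiv
  calc (V.powerset.filter fun T => T.card ≤ D).card ≤ (Finset.univ.image g).card :=
        Finset.card_le_card hsub
    _ ≤ (Finset.univ : Finset (Fin D → Option V)).card := Finset.card_image_le
    _ = (V.card + 1) ^ D := by
        rw [Finset.card_univ, Fintype.card_fun, Fintype.card_fin, Fintype.card_option,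
          Fintype.card_coe]

theorem th_mod (hI : IpcStmt) {n r ρ : ℕ} (Y : ℕ → Bool) (m P e w t : ℕ) (k : ℝ)
    (F : (Fin r → Bool) → Bool → (Fin ρ → ZMod 2) → Bool) (g : Fin r → DL (Fin n))
    (a : Fin ρ → Fin n → ZMod 2) (c : Fin ρ → ZMod 2) (u : ℕ) :
    th Y m P e w t k F g a c (u % 2 ^ m) = th Y m P e w t k F g a c u := by
  unfold th
  refine pr_congr fun y => ?_
  have h : (fun v : Fin n => gb Y m P e y (u % 2 ^ m) w v) =
      fun v : Fin n => gb Y m P e y u w v := by
    funext v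
    unfold gb
    rw [hI.2.2.2 Y m u v]
  rw [h]

theorem gbp (hD : DetStmt) (hT : ThrStmt) (hI : IpcStmt) : GbpStmt := by
  intro Y m P e q r ρ n t s D kV J l R d k M κ δ ε μ F a hP hq hJ hδ hε hrD hY hV hM0 hM hj
  obtain ⟨hfin, hcard⟩ := Pool.Agent.Helper61.DT.cnt P t s
  obtain ⟨FF, hFF, hFc⟩ : ∃ FF : Finset (DL (Fin P)), (∀ g, g ∈ FF ↔ Wid t g ∧ g.length ≤ s) ∧
      FF.card ≤ (2 * (2 * P + 1) ^ t + 1) ^ s := by
    refine ⟨hfin.toFinset, fun g => ?_, ?_⟩
    · rw [Set.Finite.mem_toFinset]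
      rfl
    · rw [← Set.ncard_eq_toFinset_card _ hfin]
      exact hcard
  obtain ⟨Sm, hSm, hSmc⟩ : ∃ Sm : Finset (Finset (Fin n)),
      (∀ T, T ∈ Sm ↔ T ⊆ VV P e D μ a ∧ T.card ≤ D) ∧ Sm.card ≤ (kV + 1) ^ D := by
    refine ⟨(VV P e D μ a).powerset.filter fun T => T.card ≤ D, fun T => ?_, ?_⟩
    · rw [Finset.mem_filter, Finset.mem_powerset]
    · exact (card_small_subsets (VV P e D μ a) D).trans (Nat.pow_le_pow_left (by omega) _)
  -- the data
  obtain ⟨Mt, hMt⟩ : ∃ Mt : Fin P × (Fin ρ → ZMod 2) × (Fin r → DL (Fin P)) × Finset (Fin n) →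
      (Fin r → DL (Fin n)) → Prop, ∀ x g, Mt x g ↔
    (∀ j, Wid t (g j) ∧ (g j).length ≤ s) ∧ GoodW P e D x.1 μ a (varsJ g) ∧
      (∀ j, ren (hF P e x.1 hP) (g j) = x.2.2.1 j) ∧
      (VV P e D μ a).filter (fun v => v ∈ varsJ g) = x.2.2.2 := ⟨_, fun _ _ => Iff.rfl⟩
  obtain ⟨Θ, hΘ⟩ : ∃ Θ : Fin P × (Fin ρ → ZMod 2) × (Fin r → DL (Fin P)) × Finset (Fin n) →
      ℕ → ℝ, ∀ x u, Θ x u = if h : ∃ g, Mt x g then
        th Y m P e x.1 t κ F h.choose a x.2.1 u else 0 := ⟨_, fun _ _ => rfl⟩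
  have hΘ01 : ∀ x u, 0 ≤ Θ x u ∧ Θ x u ≤ 1 := by
    intro x u
    rw [hΘ]
    split_ifs with h
    · exact ⟨pr_nonneg _, pr_le_one _⟩
    · exact ⟨le_rfl, zero_le_one⟩
  have hΘmod : ∀ x u, Θ x (u % 2 ^ m) = Θ x u := by
    intro x u
    rw [hΘ, hΘ]
    split_ifs with h
    · exact th_mod hI Y m P e x.1 t κ F _ a x.2.1 u
    · rfl
  let I : Finset ((Fin P × (Fin ρ → ZMod 2) × (Fin r → DL (Fin P)) × Finset (Fin n)) × ℕ) :=
    (Finset.univ ×ˢ Finset.univ ×ˢ (Fintype.piFinset fun _ : Fin r => FF) ×ˢ Sm) ×ˢ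
      Finset.Icc 1 J
  have hIc : I.card = (P * (2 ^ ρ * (FF.card ^ r * Sm.card))) * J := by
    simp only [I, Finset.card_product, Finset.card_univ, Fintype.card_fin, Fintype.card_fun,
      ZMod.card, Fintype.card_piFinset, Finset.prod_const, Nat.card_Icc, Nat.add_sub_cancel]
  let φ : (Fin P × (Fin ρ → ZMod 2) × (Fin r → DL (Fin P)) × Finset (Fin n)) × ℕ → ℕ → Prop :=
    fun i y => (i.2 : ℝ) / J ≤ Θ i.1 y
  have hmain := Pool.Agent.Helper42.JT.chn Pool.Agent.Helper39.JT.smp R d k M q l δ ε hq hδ hε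
    hM0 hM hj _ I φ
  have hRl : 0 < R l := (hj l le_rfl).1.pos
  have hmod : ∀ i, |pr (fun y : Fin (R l) => φ i y) - pr (fun y : Fin (2 ^ m) => φ i y)| ≤
      (2 : ℝ) ^ m / R l := by
    intro i
    have h := Pool.Agent.Helper40.JT.pr_mod (N := 2 ^ m) (R := R l) (by positivity) hRl (φ i)
    have h2 : pr (fun y : Fin (R l) => φ i (y % 2 ^ m)) = pr (fun y : Fin (R l) => φ i y) := by
      refine pr_congr fun y => ?_
      simp only [φ, hΘmod]
    rw [h2] at h
    simpa using h
  refine (pr_mono ?_).trans (hmain.trans ?_)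
  · intro θ hθ
    by_contra hcon
    push Not at hcon
    apply hθ
    intro w hw g c hg hGW
    -- the data of `g`
    let x : Fin P × (Fin ρ → ZMod 2) × (Fin r → DL (Fin P)) × Finset (Fin n) :=
      (⟨w, hw⟩, c, (fun j => ren (hF P e w hP) (g j)),
        (VV P e D μ a).filter fun v => v ∈ varsJ g)
    have hMx : Mt x g := (hMt x g).2 ⟨hg, hGW, fun j => rfl, rfl⟩
    have hcardg : (varsJ g).ncard ≤ D := (Pool.Agent.Helper89.JT.varsJ_ncard t s g hg).trans hrD
    have hth : ∀ u, Θ x u = th Y m P e w t κ F g a c u := by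
      intro u
      have hex : ∃ g, Mt x g := ⟨g, hMx⟩
      rw [hΘ, dif_pos hex]
      obtain ⟨h1, h2, h3, h4⟩ := (hMt x _).1 hex.choose_spec
      refine (hD Y m P e D w n r ρ t κ μ F g hex.choose a c hP hw hcardg
        ((Pool.Agent.Helper89.JT.varsJ_ncard t s _ h1).trans hrD) hY hGW h2
        (fun j => (h3 j).symm) ?_ u).symm
      intro v hv
      have h5 : v ∈ (VV P e D μ a).filter (fun v => v ∈ varsJ hex.choose) ↔
          v ∈ (VV P e D μ a).filter fun v => v ∈ varsJ g := by rw [h4]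
      simp only [Finset.mem_filter, hv, true_and] at h5
      exact h5.symm
    have hxI : ∀ j ∈ Finset.Icc 1 J, (x, j) ∈ I := by
      intro j hj'
      refine Finset.mem_product.2 ⟨Finset.mem_product.2 ⟨Finset.mem_univ _,
        Finset.mem_product.2 ⟨Finset.mem_univ _, Finset.mem_product.2 ⟨?_, ?_⟩⟩⟩, hj'⟩
      · refine Fintype.mem_piFinset.2 fun j => (hFF _).2 ⟨?_, ?_⟩
        · intro e' he'
          change e' ∈ ren (hF P e w hP) (g j) at he'
          rw [Pool.Agent.Helper81.DT.ren_eq] at he'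
          obtain ⟨e'', he'', rfl⟩ := List.mem_map.1 he'
          exact (Pool.Agent.Helper81.DT.card_imt _ _).trans ((hg j).1 _ he'')
        · change (ren (hF P e w hP) (g j)).length ≤ s
          rw [Pool.Agent.Helper81.DT.ren_length]
          exact (hg j).2
      · refine (hSm _).2 ⟨Finset.filter_subset _ _, ?_⟩
        calc ((VV P e D μ a).filter fun v => v ∈ varsJ g).card
            = (((VV P e D μ a).filter fun v => v ∈ varsJ g : Finset (Fin n)) :
                Set (Fin n)).ncard := (Set.ncard_coe_finset _).symm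
          _ ≤ (varsJ g).ncard := by
              refine Set.ncard_le_ncard ?_ (Set.toFinite _)
              intro v hv
              exact (Finset.mem_filter.1 hv).2
          _ ≤ D := hcardg
    have hThr := hT (Fin q) (Fin (2 ^ m)) (fun i => Θ x (ch R d θ i (l + 1))) (fun u => Θ x u) J
      ((l + 1) * δ + 2 ^ m / R l) hJ (fun i => hΘ01 _ _) (fun i => hΘ01 _ _) (by
        intro j hj'
        have e1 := hcon (x, j) (hxI j hj')
        have e2 := hmod (x, j)
        have e3 := abs_sub_le (pr (fun a : Fin q => φ (x, j) (ch R d θ a (l + 1))))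
          (pr (fun y : Fin (R l) => φ (x, j) y)) (pr (fun y : Fin (2 ^ m) => φ (x, j) y))
        exact e3.trans (add_le_add e1 e2))
    simp only [hth] at hThr
    exact hThr
  · refine mul_le_mul_of_nonneg_left (mul_le_mul_of_nonneg_right ?_ hε) (by positivity)
    rw [hIc, errI]
    push_cast
    have h3 : (FF.card : ℝ) ^ r ≤ (2 * (2 * (P : ℝ) + 1) ^ t + 1) ^ (s * r) := by
      calc (FF.card : ℝ) ^ r ≤ ((((2 * (2 * P + 1) ^ t + 1) ^ s : ℕ) : ℝ)) ^ r :=
            pow_le_pow_left₀ (Nat.cast_nonneg _) (by exact_mod_cast hFc) r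
        _ = _ := by push_cast; rw [pow_mul]
    have h4 : (Sm.card : ℝ) ≤ ((kV : ℝ) + 1) ^ D := by exact_mod_cast hSmc
    calc (P : ℝ) * (2 ^ ρ * ((FF.card : ℝ) ^ r * Sm.card)) * J
        ≤ (P : ℝ) * (2 ^ ρ * ((2 * (2 * (P : ℝ) + 1) ^ t + 1) ^ (s * r) *
            ((kV : ℝ) + 1) ^ D)) * J := by gcongr
      _ = _ := by ring

end Pool.Agent.Helper15.AF
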