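import Pool.Agent.Helper15.AF.Goals2

/-!
# Project AF, packet LAW: characters determine the distribution
-/

namespace Pool.Agent.Helper15.AF

open Pool.Agent.Helper51.ZP Pool.Agent.Helper78.DT
open scoped Classical Matrix

theorem av_char_eq {Ω κ : Type} [Fintype Ω] [Fintype κ] [DecidableEq κ] (X : Ω → κ → ZMod 2)
    (y0 : κ → ZMod 2) :
    pr (fun ω => X ω = y0) =
      av fun l : κ → ZMod 2 => sg (l ⬝ᵥ y0) * av fun ω => sg (∑ i, l i * X ω i) := by
  have h1 : pr (fun ω => X ω = y0) =
      av fun ω => av fun l : κ → ZMod 2 => sg (l ⬝ᵥ y0) * sg (∑ i, l i * X ω i) := by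
    unfold pr
    refine av_congr fun ω => ?_
    have h2 : (av fun l : κ → ZMod 2 => sg (l ⬝ᵥ y0) * sg (∑ i, l i * X ω i)) =
        av fun l : κ → ZMod 2 => sg (l ⬝ᵥ (X ω + y0)) := by
      refine av_congr fun l => ?_
      rw [dotProduct_add, sg_add, mul_comm]
      rfl
    have h3 := Ex_sg_dot (X ω + y0)
    have h4 : (av fun l : κ → ZMod 2 => sg (l ⬝ᵥ (X ω + y0))) =
        if X ω + y0 = 0 then 1 else 0 := h3
    rw [h2, h4]
    have h5 : X ω + y0 = 0 ↔ X ω = y0 := by
      constructor
      · intro h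
        funext i
        have := congrFun h i
        simp only [Pi.add_apply, Pi.zero_apply] at this
        rcases zmod2_cases (X ω i) with h6 | h6 <;> rcases zmod2_cases (y0 i) with h7 | h7 <;>
          rw [h6, h7] at this ⊢ <;> simp_all
      · rintro h
        rw [h]
        funext i
        exact zmod2_self _
    by_cases h6 : X ω = y0
    · rw [if_pos h6, if_pos (h5.2 h6)]
    · rw [if_neg h6, if_neg fun h => h6 (h5.1 h)]
  rw [h1, av_comm]
  refine av_congr fun l => ?_
  rw [av_mul_left]

theorem law : LawStmt := by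
  intro Ω Ω' _ _ κ _ _ X X' h E
  have key : ∀ y0, pr (fun ω => X ω = y0) = pr (fun ω => X' ω = y0) := by
    intro y0
    rw [av_char_eq, av_char_eq]
    refine av_congr fun l => ?_
    rw [h l]
  have hsum : ∀ {Ω : Type} [Fintype Ω] (X : Ω → κ → ZMod 2),
      pr (fun ω => E (X ω)) = ∑ y0 : κ → ZMod 2, (if E y0 then 1 else 0) *
        pr (fun ω => X ω = y0) := by
    intro Ω _ X
    have h1 : (∑ y0 : κ → ZMod 2, (if E y0 then (1 : ℝ) else 0) * pr (fun ω => X ω = y0)) =
        av fun ω => ∑ y0 : κ → ZMod 2, (if E y0 then (1 : ℝ) else 0) *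
          (if X ω = y0 then (1 : ℝ) else 0) := by
      rw [av_sum]
      refine Finset.sum_congr rfl fun y0 _ => ?_
      rw [av_mul_left]
      congr 1
      unfold pr
      refine av_congr fun ω => ?_
      by_cases h : X ω = y0 <;> simp [h]
    rw [h1]
    unfold pr
    refine av_congr fun ω => ?_
    rw [Finset.sum_eq_single (X ω)]
    · rw [if_pos rfl, mul_one]
    · intro b _ hb
      rw [if_neg (Ne.symm hb), mul_zero]
    · intro h
      exact absurd (Finset.mem_univ _) h
  rw [hsum X, hsum X']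
  exact Finset.sum_congr rfl fun y0 _ => by rw [key y0]

end Pool.Agent.Helper15.AF
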