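import Pool.Agent.Helper15.AF.CDM
import Pool.Agent.Helper15.AF.Forced
import Pool.Agent.Helper15.AF.GBP
import Pool.Agent.Helper15.AF.LAW
import Pool.Agent.Helper18.AF.PRM
import Pool.Agent.Helper97.AF.SBB
import Pool.Agent.Helper77.AF.HNK
import Pool.Agent.Helper80.AF.PTY
import Pool.Agent.Helper80.AF.IPC
import Pool.Agent.Helper80.AF.TWC
import Pool.Agent.Helper80.AF.VVC
import Pool.Agent.Helper86.AF.WGD
import Pool.Agent.Helper95.AF.GYP
import Pool.Agent.Helper26.AF.LTS
import Pool.Agent.Helper65.AF.INV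
import Pool.Agent.Helper12.AF.UNI
import Pool.Agent.Helper54.AF.DET
import Pool.Agent.Helper16.AF.RNM
import Pool.Agent.Helper82.AF.THR
import Pool.Agent.Helper49.AF.GAP
import Pool.Agent.Helper60.AF.FOM
import Pool.Agent.Helper45.AF.HYM
import Pool.Agent.Helper51.AF.TOM
import Pool.Agent.Helper85.AF.TBM
import Pool.Agent.Helper37.AF.TGM
import Pool.Agent.Helper45.AF.PM1
import Pool.Agent.Helper36.AF.PM2
import Pool.Agent.Helper17.AF.PM3
import Pool.Agent.Helper46.AF.PM4
import Pool.Agent.Helper51.AF.PMA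
import Pool.Agent.Helper45.AF.PMB
import Pool.Agent.Helper95.AF.AFS
import Pool.Agent.Helper17.AF.CLM
import Pool.Agent.Helper64.AF.DGM
import Pool.Agent.Helper27.AF.CAM
import Pool.Agent.Helper13.AF.CPM

/-!
# The generator for sets certified by few coins or by linear equations: the assembly
-/

namespace Pool.Agent.Helper15.AF

open Pool.Agent.Helper51.ZP

theorem main (c e : ℕ) : Generates c e ∧ ∀ L : Set (List Bool), InP L ↔ Decided c e L := by
  have hPrm : PrmStmt := Pool.Agent.Helper18.AF.prm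
  have hSbb : SbbStmt := Pool.Agent.Helper97.AF.sbb
  have hHnk : HnkStmt := Pool.Agent.Helper77.AF.hnk hPrm hSbb
  have hPty : PtyStmt := Pool.Agent.Helper80.AF.pty
  have hIpc : IpcStmt := Pool.Agent.Helper80.AF.ipc
  have hVvc : VvcStmt := Pool.Agent.Helper80.AF.vvc
  have hWgd : WgdStmt := Pool.Agent.Helper86.AF.wgd
  have hGyp : GypStmt := Pool.Agent.Helper95.AF.gyp hHnk
  have hLaw : LawStmt := law
  have hLts : LtsStmt := Pool.Agent.Helper26.AF.lts hLaw
  have hInv : InvStmt := Pool.Agent.Helper65.AF.inv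
  have hUni : UniStmt := Pool.Agent.Helper12.AF.uni hIpc hLts hInv
  have hDet : DetStmt := Pool.Agent.Helper54.AF.det hIpc hLaw hInv
  have hRnm : RnmStmt := Pool.Agent.Helper16.AF.rnm
  have hThr : ThrStmt := Pool.Agent.Helper82.AF.thr
  have hGap : GapStmt := Pool.Agent.Helper49.AF.gap
  have hGbp : GbpStmt := gbp hDet hThr hIpc
  have hFom : FomStmt := Pool.Agent.Helper60.AF.fom hUni hRnm hWgd
  have hHym : HymStmt := Pool.Agent.Helper45.AF.hym
  have hTom : TomStmt := Pool.Agent.Helper51.AF.tom hVvc hGyp hGap hGbp hFom hHym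
  have hTbm : TbmStmt := Pool.Agent.Helper85.AF.tbm
  have hTgm : TgmStmt := Pool.Agent.Helper37.AF.tgm hTom hTbm
  have h1 : Pm1Stmt := Pool.Agent.Helper45.AF.pm1
  have h2 : Pm2Stmt := Pool.Agent.Helper36.AF.pm2 h1
  have h3 : Pm3Stmt := Pool.Agent.Helper17.AF.pm3 h1
  have h4 : Pm4Stmt := Pool.Agent.Helper46.AF.pm4
  have hPma : PmaStmt := Pool.Agent.Helper51.AF.pma h1 h2 h3 h4
  have hPmb : PmbStmt := Pool.Agent.Helper45.AF.pmb
  have hAfs : AfsStmt := Pool.Agent.Helper95.AF.afs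
  have hClm : ClmStmt := Pool.Agent.Helper17.AF.clm hAfs
  have hDgm : DgmStmt := Pool.Agent.Helper64.AF.dgm
  have hCam : CamStmt := Pool.Agent.Helper27.AF.cam hTgm hPma hPmb hDgm hClm
  have hCpm : CpmStmt := Pool.Agent.Helper13.AF.cpm hPty
  have hG : CgmStmt := cgm hCam hCpm
  exact ⟨hG c e, cdm hG c e⟩

end Pool.Agent.Helper15.AF
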