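import Pool.Agent.Helper15.AF.Core

/-!
# Project AF: the small-bias strings, with proofs in words

`MP_34c247_lc`, helper15. A generator for sets which are certified by few sets, each of which has
witnesses of `c log N` coins or is an affine subspace over `F_2`. Definitions: `AF/Defs.lean` (final
statement), `AF/Core.lean` (analysis). All goals of DT, AO, JT, CG are proved and may be used.
-/

namespace Pool.Agent.Helper15.AF

open Pool.Agent.Helper81.CC Pool.Agent.Helper51.ZP Pool.Agent.Helper78.DT Pool.Agent.Helper78.JT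
open scoped Classical

/-- **PRM.** A feedback vector with the full period is found. (Use `Pool.Agent.Helper51.ZP`:
`iter_stp`, `powGen_rec` in `Hit.lean`, `exists_field`, `b2z_z2b`.)

Proof. Every list of length `k` is `vk k i` for some `i < 2 ^ k` (binary expansion), so it is enough
to find a list `c` of length `k` with `full k c = true` (`List.find?_isSome`, `List.find?_some`). Let `F`
be a field with `2 ^ k` elements (`GaloisField 2 k`), `γ` a generator of the cyclic group of its units,
so the powers `γ ^ i`, `i < 2 ^ k - 1`, are different and `γ ^ (2 ^ k - 1) = 1`. Then `F = F_2(γ)`, so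
the minimal polynomial of `γ` over `ZMod 2` has degree `k`, `1, γ, ..., γ^(k-1)` is a basis of `F`
over `ZMod 2` and `γ^k = ∑_{j<k} c_j γ^j` for some `c_j`. (If the powers `γ^j`, `j < k`, were
dependent, then they would span a space of dimension `< k` closed under multiplication by `γ`, which
contains all powers of `γ`, so all of `F`.) Let `φ : F → ZMod 2` be the linear map with `φ 1 = 1`,
`φ (γ^j) = 0` for `0 < j < k`, and `y i = φ (γ^i)`. Then `y (i + k) = ∑_j c_j y (i + j)`, so by
`iter_stp` with the list `c = (List.range k).map fun j => z2b (c_j)` the state after `i` steps is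
`(List.range k).map fun j => z2b (y (i + j))`, and for `i = 0` it is `s0 k`. The state number `i` is
`s0 k` iff `φ ((γ^i - 1) γ^j) = 0` for all `j < k`, iff `φ` vanishes on `(γ^i - 1) F`, iff `γ^i = 1`
(`φ ≠ 0`). -/
def PrmStmt : Prop := ∀ k : ℕ, 1 ≤ k → (findc k).length = k ∧ full k (findc k) = true

/-- **SBB.** The strings have small bias. (`PrmStmt` is not needed.)

Proof. Let `V = (Fin k → ZMod 2)` (or the lists of length `k`) and `M : V → V` the linear map given by
`stp c` (the last coordinate of `M v` is `∑ c_j v_j`, the others are shifted), `s` the vector of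
`s0 k`, `Q = 2^k - 1`, `π v = v 0`, so `b2z (yc k c α β j) = π (M^((β + α j) % Q) s)`. (1) The vectors
`M^i s`, `i < Q`, are different: if `M^i s = M^j s`, `i < j < Q`, then `M^(i + Q - j) s = M^Q s = s` with
`0 < i + Q - j < Q`, impossible. None of them is `0`, since `M^Q s = s ≠ 0`. So they are all the `Q`
nonzero vectors of `V`, and `M^Q = 1` (it is `1` on all `M^i s`); so `% Q` may be dropped. (2) Let `N` be
a polynomial in `M`, not `0`. Then `N` is injective: if `N v = 0`, `v ≠ 0`, then `v = M^i s`, and
`N M^j v = M^j N v = 0` for all `j`, so `N` vanishes at all nonzero vectors. (3) Let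
`N_α = ∑_j e_j (M^α)^j`, so `∑_j e_j b2z (yc k c α β j) = π (M^β N_α s)`. If `N_α ≠ 0`, then
`N_α s ≠ 0` by (2), `N_α s = M^i s`, and `∑_{β < Q} sg (π (M^(β+i) s)) = ∑_{v ≠ 0} sg (v 0) = -1`
(`k ≥ 1`: the sum over all `v` is `0`). So the average over `β` is `-1/Q`. (4) `N_α = 0` for at most
`T` of the `α < Q`: the subalgebra `R` generated by `M` is commutative
(`Algebra.adjoinCommRingOfComm` or work with `Module.End` and commuting elements) and has no zero
divisors by (2) (if `N N' = 0`, `N' ≠ 0`, then `N` vanishes on the range of `N'`, which is everything,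
as `N'` is injective), and the different elements `M^α` (`α < Q`, different by (1)) with `N_α = 0` are
roots of the nonzero polynomial `∑_j e_j X^j` of degree `< T` over `R`. Altogether the average is at
most `T / Q + 1 / Q` in absolute value. -/
def SbbStmt : Prop := ∀ (k : ℕ) (c : List Bool), 1 ≤ k → c.length = k → full k c = true →
  ∀ (T : ℕ) (e : Fin T → ZMod 2), e ≠ 0 →
    |av (fun p : Fin (Qk k) × Fin (Qk k) => sg (∑ j : Fin T, e j * b2z (yc k c p.1 p.2 j)))| ≤
      ((T : ℝ) + 1) / Qk k

/-- **HNK.** The Hankel matrix of a small-bias string is injective at a given vector with high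
probability. (May assume `PrmStmt`, `SbbStmt`.)

Proof. For a vector `y : Fin m → ZMod 2`, `[y = 0] = 2^(-m) ∑_d sg (∑_i d_i y_i)` (`Ex_sg_dot` in
`ZP/Viola.lean`, or directly). Take `y = tm Y m c` and average over the seeds. The term `d = 0` is `1`.
For `d ≠ 0`: `∑_i d_i ∑_j c_j Y (j + i) = ∑_{l < n + m} e_l Y l` with `e_l = ∑_{i + j = l} d_i c_j`,
the coefficients of the product of the polynomials `∑ d_i X^i`, `∑ c_j X^j` over `ZMod 2`, which is not
`0` (both factors are not `0`) and has degree `< n + m`; by SBB (for `T' = n + m ≤ T`) the average is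
at most `(T + 1)/Q`. So the probability is at most
`2^(-m) (1 + (2^m - 1) (T + 1)/Q) ≤ 2^(-m) + (T+1)/Q`. -/
def HnkStmt : Prop := ∀ (k n m T : ℕ), 1 ≤ k → n + m ≤ T → ∀ c : Fin n → ZMod 2, c ≠ 0 →
  pr (fun p : Fin (Qk k) × Fin (Qk k) => tm (Yf k p.1 p.2) m c = 0) ≤
    1 / 2 ^ m + ((T : ℝ) + 1) / Qk k

/-- **PTY.** The strings are computed in polynomial time. (Tools: `PolyTime` calculus, for example
`Pool.Agent.Helper3.DT.ptl` (powers of two which are bounded), `PolyTime.iterate_bd`, the lemmas for
`stp`, `lfsr`, `par` in `Pool.Agent.Helper51.ZP.Alg`, `phs` in JT/PTJ for digits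
`v / 2 ^ j % 2`.)

Proof. `Qk k = 2 ^ k - 1 < n`. `stp` is in `PolyTime`, and it keeps the length of the state (or makes it
at most `1` longer if the state is empty: `stp c [] = [false]`), so an iteration of at most `Qk k`
steps is in `PolyTime` (`iterate_bd`, the number of the steps is `≤ n`). `vk`, `s0` are maps over
`List.range`. `full` is a conjunction over `List.range (Qk k)` of conditions with iterates; `findc` is a
search in `List.range (2 ^ k)`. -/
def PtyStmt : Prop := ∀ (γ : Type) [ToData γ] (k n α β j : γ → ℕ), PolyTime k → PolyTime n →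
  (∀ x, 2 ^ k x ≤ n x) → PolyTime α → PolyTime β → PolyTime j →
  PolyTime fun x => Yf (k x) (α x) (β x) (j x)

/-- **IPC.** The scalar product. (`P` prime is not needed, only `0 < P`.)

Proof. (1) `b2z (ip Y m y j) = ∑_{i<m} b2z (bt y i) * b2z (Y (j + i))`: the parity of the number of the
`i` with both bits `true`. Exchange the sums. (2) `b2z (xor a b) = b2z a + b2z b`, and sort the coins
`v` by their hash value. (3) The map `y ↦ (bt y i)_{i<m}` is a bijection of `Fin (2^m)` and
`Fin m → Bool` (`finFunctionFinEquiv` or induction on `m`), so the average is the product of the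
averages of `sg (d i * b2z b)` over `b`, which is `0` if some `d i = 1`. (4) `(y % 2^m) / 2^i % 2 =
y / 2^i % 2` for `i < m`. -/
def IpcStmt : Prop :=
  (∀ (Y : ℕ → Bool) (m n : ℕ) (c : Fin n → ZMod 2) (y : ℕ),
    ∑ j : Fin n, c j * b2z (ip Y m y j) = ∑ i : Fin m, tm Y m c i * b2z (bt y i)) ∧
  (∀ (Y : ℕ → Bool) (m P e ζ u w n : ℕ) (c : Fin n → ZMod 2), 0 < P →
    dot c (fun v => gb Y m P e ζ u w v) =
      (∑ i : Fin m, tm Y m (hv P e w c) i * b2z (bt ζ i)) + ∑ i : Fin m, tm Y m c i * b2z (bt u i)) ∧
  (∀ (m : ℕ) (d : Fin m → ZMod 2),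
    av (fun y : Fin (2 ^ m) => sg (∑ i : Fin m, d i * b2z (bt y i))) = if d = 0 then 1 else 0) ∧
  ∀ (Y : ℕ → Bool) (m y j : ℕ), ip Y m (y % 2 ^ m) j = ip Y m y j

end Pool.Agent.Helper15.AF
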