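import Pool.Agent.Helper15.AF.Goals1

/-!
# Project AF: the analysis, with proofs in words

The situation in one part of the partition: `a i` are linear forms (the forms of the certified set,
restricted to the part), the coins are `gb Y m P e ζ u w v`, with two strings `ζ`, `u` of `m` bits from
a pool and a hash parameter `w`. The functions to be fooled are `H` of the values of `r` decision
lists of width `t` and of the forms. The linear form `b` has the value
`⟨tm Y m (hv P e w b), ζ⟩ + ⟨tm Y m b, u⟩` (IPC).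
-/

namespace Pool.Agent.Helper15.AF

open Pool.Agent.Helper81.CC Pool.Agent.Helper51.ZP Pool.Agent.Helper78.DT Pool.Agent.Helper78.JT
open scoped Classical

/-! ### The sets `TW`, `VV` and good seeds -/

/-- **TWC.** There are few cells in `TW`.

Proof. The vectors `hv P e w (comb a l)` are the linear combinations of the `ρ` vectors
`hv P e w (a i)` (`hv` is linear). Let `W` be the span of the light ones (those with `wz ≤ D`). Its
dimension is at most `ρ`, and it has a basis of light vectors (`exists_linearIndependent`, a maximal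
independent subset of the set of the light vectors). Every light vector is a linear combination of the
basis vectors, so its support is contained in the union of their supports, which has at most `ρ D`
elements. -/
def TwcStmt : Prop := ∀ (P e D w n ρ : ℕ) (a : Fin ρ → Fin n → ZMod 2),
  (Finset.univ.filter fun u : Fin P => TW P e D w a u).card ≤ ρ * D

/-- **VVC.** There are few names in `VV` (list recovery). (May assume `TwcStmt`; use
`Pool.Agent.Helper59.DT.hsh`: two different names have the same hash value for at most `e` of the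
`w < P`.)

Proof. Suppose that `VV` has more than `k` elements and choose `V'` in `VV` with exactly `k` elements.
For `w < P` let `X_w` be the number of the `v ∈ V'` with `hs P e w v` in `TW P e D w a`. By the definition
of `VV`, `∑_w X_w > k μ P` (`k > 0`). On the other hand these `X_w` names are hashed to at most `ρ D`
cells, so `X_w ≤ ρ D + C_w`, `C_w` the number of the pairs `v < v'` in `V'` with the same hash value
(a fibre with `f ≥ 1` elements has `f (f-1)/2 ≥ f - 1` pairs), and `∑_w C_w ≤ k² e` by HSH (`n ≤ 2^e`). So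
`k μ P < ρ D P + k² e`, a contradiction. -/
def VvcStmt : Prop := ∀ (P e D n ρ k : ℕ) (μ : ℝ) (a : Fin ρ → Fin n → ZMod 2), P.Prime →
  n ≤ 2 ^ e → 0 < k → ((ρ * D : ℕ) : ℝ) * P + (k : ℝ) ^ 2 * e ≤ k * μ * P →
    (VV P e D μ a).card ≤ k

/-- **WGD.** Most hash parameters are good for a small set. (Use `Pool.Agent.Helper59.DT.inj`, see
`inj` in `DT/Final.lean`.)

Proof. The hash function is injective on `S` (as a map on `Fin n`) but for a fraction `≤ D² e/P` of the
`w` (INJ for the set of the values). For each `v ∈ S` outside `VV` the fraction of the `w` with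
`hs P e w v` in `TW` is at most `μ` by the definition of `VV`. Union bound. -/
def WgdStmt : Prop := ∀ (P e D n ρ : ℕ) (μ : ℝ) (a : Fin ρ → Fin n → ZMod 2) (S : Set (Fin n)),
  P.Prime → n ≤ 2 ^ e → 0 ≤ μ → S.ncard ≤ D →
    pr (fun w : Fin P => ¬ GoodW P e D w μ a S) ≤ (D : ℝ) ^ 2 * e / P + D * μ

/-- **GYP.** Most strings `Y` are good. (May assume `HnkStmt`.)

Proof. Union bound with HNK over the vectors in the two parts of the definition of `GoodY`: `l` has
`2 ^ ρ` values; the number of the subsets `S` of `VV` with at most `D` elements is at most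
`(kV + 1) ^ D`, since each of them is the set of the values `≠ none` of a function
`Fin D → Option VV`; in the same way `(P + 1) ^ D` for the sets `U`, and `P` values of `w`. -/
def GypStmt : Prop := ∀ (kk m P e D n ρ kV T : ℕ) (μ : ℝ) (a : Fin ρ → Fin n → ZMod 2), 1 ≤ kk →
  n + m ≤ T → P + m ≤ T → (VV P e D μ a).card ≤ kV →
    pr (fun p : Fin (Qk kk) × Fin (Qk kk) => ¬ GoodY (Yf kk p.1 p.2) m P e D μ a) ≤
      errY P m ρ D kV T (Qk kk)

/-! ### Distributions of linear forms -/

/-- **LAW.** The distribution of a random vector is determined by the averages of the characters.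

Proof. It is enough to treat `E y ↔ y = y0` (sum over the `y0` with `E y0`). As
`[y = y0] = 2^(-|κ|) ∑_ρ sg (∑ ρ_i (y_i + y0_i))` (`Ex_sg_dot` in `ZP/Viola.lean` for `y + y0`, characteristic
`2`), the probability of `X = y0` is `2^(-|κ|) ∑_ρ sg (ρ · y0) av (sg (ρ · X))`. -/
def LawStmt : Prop := ∀ (Ω Ω' : Type) [Fintype Ω] [Fintype Ω'] (κ : Type) [Fintype κ]
  [DecidableEq κ] (X : Ω → κ → ZMod 2) (X' : Ω' → κ → ZMod 2),
  (∀ l : κ → ZMod 2, av (fun ω => sg (∑ i, l i * X ω i)) = av (fun ω => sg (∑ i, l i * X' ω i))) →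
    ∀ E : (κ → ZMod 2) → Prop, pr (fun ω => E (X ω)) = pr (fun ω => E (X' ω))

/-- **LTS.** The same for tests. (May assume `LawStmt`; use `ev_congr`, `dep` in
`Pool.Agent.Helper61.DT.DEPCNT`, `RnjStmt`: `ev` and `BadJ` depend only on `varsJ g`.)

Proof. The test `ts F t k g a c x` is a function of the bits `x v`, `v ∈ varsJ g`, and of the values
`dot (a i) x`, so it is of the form `E` of the vector with the coordinates `b2z (x v)` (`v ∈ varsJ g`),
`dot (a i) x` (`i < ρ`), with index set the disjoint union (for `y` in `{0,1}` for the given coordinates,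
extended by `false`). The character with coefficients `s` on `varsJ g`, `l` on `Fin ρ` is
`sg (dot (comb a l + ind S) x)` where `S` is the set of the `v` with `s v = 1`. -/
def LtsStmt : Prop := ∀ (Ω Ω' : Type) [Fintype Ω] [Fintype Ω'] (n r ρ t : ℕ) (k : ℝ)
  (F : (Fin r → Bool) → Bool → (Fin ρ → ZMod 2) → Bool) (g : Fin r → DL (Fin n))
  (a : Fin ρ → Fin n → ZMod 2) (c : Fin ρ → ZMod 2) (X : Ω → Fin n → Bool) (X' : Ω' → Fin n → Bool),
  (∀ (l : Fin ρ → ZMod 2) (S : Finset (Fin n)), (S : Set (Fin n)) ⊆ varsJ g →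
    av (fun ω => sg (dot (comb a l + ind S) (X ω))) =
      av (fun ω => sg (dot (comb a l + ind S) (X' ω)))) →
    pr (fun ω => ts F t k g a c (X ω)) = pr (fun ω => ts F t k g a c (X' ω))

/-- **INV.** Good strings and good hash parameters: no linear form in question vanishes.

Proof. `hv` is linear, and `hv P e w (ind S') = ind (image of S')` since the hash function is injective
on `S`; the image has at most `D` elements. (1) So `hv P e w b` is one of the vectors in the second
part of `GoodY`. (2) If `hv P e w b = 0`, then `hv P e w (comb a l)` is the indicator of the image of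
`S'` (characteristic `2`), so it is light and its support, the image of `S'`, is in `TW`; hence each
`v ∈ S'` is in `VV`, by the second part of `GoodW`. (3) If `b ≠ 0` and `hv P e w b = 0`, then
`tm Y m b ≠ 0` by (2) and the first part of `GoodY`; if `hv P e w b ≠ 0`, use (1). -/
def InvStmt : Prop := ∀ (Y : ℕ → Bool) (m P e D w n ρ : ℕ) (μ : ℝ) (a : Fin ρ → Fin n → ZMod 2)
  (S : Set (Fin n)), w < P → S.ncard ≤ D → GoodY Y m P e D μ a → GoodW P e D w μ a S →
  ∀ (l : Fin ρ → ZMod 2) (S' : Finset (Fin n)), (S' : Set (Fin n)) ⊆ S →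
    (tm Y m (hv P e w (comb a l + ind S')) = 0 ↔ hv P e w (comb a l + ind S') = 0) ∧
    (hv P e w (comb a l + ind S') = 0 →
      S' ⊆ VV P e D μ a ∧ ∀ u : Fin P, (∃ v ∈ S', hs P e w v = u) ↔ hv P e w (comb a l) u ≠ 0) ∧
    (comb a l + ind S' ≠ 0 →
      tm Y m (hv P e w (comb a l + ind S')) ≠ 0 ∨ tm Y m (comb a l + ind S') ≠ 0)

/-- **UNI.** For two uniform strings the tests have exactly the right probabilities. (May assume
`IpcStmt`, `LtsStmt`, `InvStmt`.)

Proof. LTS for the coins `gb` over the pairs of strings, and for the uniform `x`. By IPC the average of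
`sg (dot b (gb ...))` over the two strings is the product of `[tm Y m (hv P e w b) = 0]` and
`[tm Y m b = 0]`, so it is `[b = 0]` by INV; and the average of `sg (dot b x)` over `x` is `[b = 0]` as
well. -/
def UniStmt : Prop := ∀ (Y : ℕ → Bool) (m P e D w n r ρ t : ℕ) (k μ : ℝ)
  (F : (Fin r → Bool) → Bool → (Fin ρ → ZMod 2) → Bool) (g : Fin r → DL (Fin n))
  (a : Fin ρ → Fin n → ZMod 2) (c : Fin ρ → ZMod 2), w < P → (varsJ g).ncard ≤ D →
  GoodY Y m P e D μ a → GoodW P e D w μ a (varsJ g) →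
    av (fun u : Fin (2 ^ m) => th Y m P e w t k F g a c u) =
      pr (fun x : Fin n → Bool => ts F t k g a c x)

/-- **DET.** The function `th` is determined by few data. (May assume `IpcStmt`, `LawStmt`,
`InvStmt`; use RNB/RNJ: `Pool.Agent.Helper81.DT.RNB`, `Pool.Agent.Helper89.JT.RNJ`.)

Proof. Let `π v = hF P e w hP v`, `G j = ren π (g j) = ren π (g' j)`, `U = varsJ G`, which is the image
of `varsJ g` and of `varsJ g'`. For the coins `x` let `x° : Fin P → Bool` be `x° p = x v` if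
`p = π v`, `v ∈ varsJ g` (`π` is injective there), and `false` otherwise. Then `ev (g j) x = ev (G j) x°`
and `BadJ t k g x ↔ BadJ t k G x°` (RNB for `x° ∘ π`, which agrees with `x` on `varsJ g`; RNB is for
`lo`, `hi`; `bad_ren` in `Pool.Agent.Helper81.DT.RNB`). So
`ts F t k g a c x = F (ev (G j) x°) (BadJ t k G x°) (dot a x + c)`, a function of the bits `x° p`, `p ∈ U`,
and of the forms. Use LAW for the coins `gb Y m P e ζ u w`, `ζ` uniform, for `g` and for `g'`. The
character with the coefficients `1` on `U' ⊆ U` and `l` on the forms is `sg (dot b x)` with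
`b = comb a l + ind S'`, `S' = {v ∈ varsJ g | π v ∈ U'}`; its average over `ζ` is
`sg ⟨tm Y m b, u⟩` if `tm Y m (hv P e w b) = 0`, that is (INV) if `hv P e w b = 0`, and `0` otherwise.
Now `hv P e w b = hv P e w (comb a l) + ind U'` is the same for `g` and `g'`; and if it is `0`, then
`S' ⊆ VV` by INV, so `S' = {v ∈ varsJ g ∩ VV | π v ∈ U'}` is the same for `g` and `g'` too. -/
def DetStmt : Prop := ∀ (Y : ℕ → Bool) (m P e D w n r ρ t : ℕ) (k μ : ℝ)
  (F : (Fin r → Bool) → Bool → (Fin ρ → ZMod 2) → Bool) (g g' : Fin r → DL (Fin n))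
  (a : Fin ρ → Fin n → ZMod 2) (c : Fin ρ → ZMod 2) (hP : 0 < P), w < P →
  (varsJ g).ncard ≤ D → (varsJ g').ncard ≤ D → GoodY Y m P e D μ a →
  GoodW P e D w μ a (varsJ g) → GoodW P e D w μ a (varsJ g') →
  (∀ j, ren (hF P e w hP) (g j) = ren (hF P e w hP) (g' j)) →
  (∀ v ∈ VV P e D μ a, v ∈ varsJ g ↔ v ∈ varsJ g') →
    ∀ u, th Y m P e w t k F g a c u = th Y m P e w t k F g' a c u

/-- **RNM.** Tests for a fixed second string are tests in the first string with names `< P`. (Use
`Pool.Agent.Helper81.DT.RNB`, `Pool.Agent.Helper89.JT.RNJ`.)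

Proof. Changing signs: `Sat (T.image fun p => (p.1, xor p.2 (s p.1))) y ↔ Sat T (fun v => xor (y v) (s v))`;
so `ev (flp s f) y = ev f (y xor s)`, `NoSat` in the same way, also for `take l`; `vars`, lengths and
widths are kept; `y ↦ y xor s` is a bijection, so the probabilities in the definition of `Bad` are kept
(the map `T ↦ T.image ...` is an involution on the terms over `vars f`), and
`Bad t k (flp s f) y ↔ Bad t k f (y xor s)`. With `π = hF P e w hP`, injective on `varsJ g` (the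
variables of `flp s (g j)` are those of `g j`), by RNB `ev (ren π f) z = ev f (z ∘ π)` and
`Bad t k (ren π f) z ↔ Bad t k f (z ∘ π)` (`bad_ren`; for each `j`, `π` is injective on `vars (g j)`). And
`dot b (fun v => xor (z (π v)) (s v)) = dot (hv P e w b) z + dot b s`. -/
def RnmStmt : Prop := ∀ (P e w n r ρ t s' : ℕ) (k : ℝ)
  (F : (Fin r → Bool) → Bool → (Fin ρ → ZMod 2) → Bool) (g : Fin r → DL (Fin n))
  (a : Fin ρ → Fin n → ZMod 2) (c : Fin ρ → ZMod 2) (hP : 0 < P) (s : Fin n → Bool),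
  Set.InjOn (fun v : Fin n => hs P e w v) (varsJ g) →
  (∀ z : Fin P → Bool, ts F t k g a c (fun v => xor (z (hF P e w hP v)) (s v)) ↔
    ts F t k (fun j => ren (hF P e w hP) (flp s (g j))) (fun i => hv P e w (a i))
      (fun i => c i + dot (a i) s) z) ∧
  ((∀ j, Wid t (g j) ∧ (g j).length ≤ s') →
    ∀ j, Wid t (ren (hF P e w hP) (flp s (g j))) ∧ (ren (hF P e w hP) (flp s (g j))).length ≤ s')

/-! ### The pool is good -/

/-- **THR.** Thresholds.

Proof. For `0 ≤ x ≤ 1` the number `(1/J) #{j ∈ {1, ..., J} | j/J ≤ x} = ⌊J x⌋ / J` lies in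
`[x - 1/J, x]`; take averages. -/
def ThrStmt : Prop := ∀ (Ω Ω' : Type) [Fintype Ω] [Fintype Ω'] (θ : Ω → ℝ) (θ' : Ω' → ℝ) (J : ℕ)
  (δ : ℝ), 0 < J → (∀ ω, 0 ≤ θ ω ∧ θ ω ≤ 1) → (∀ ω, 0 ≤ θ' ω ∧ θ' ω ≤ 1) →
  (∀ j ∈ Finset.Icc 1 J, |pr (fun ω => (j : ℝ) / J ≤ θ ω) - pr (fun ω => (j : ℝ) / J ≤ θ' ω)| ≤ δ) →
    |av θ - av θ'| ≤ δ + 1 / J

/-- **GAP.** Most seeds of the chain give numbers which are good for the tests in the first string.
(Use CHN: `Pool.Agent.Helper42.JT.chn Pool.Agent.Helper39.JT.smp`, part (a) of the proof of STR in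
`Pool.Agent.Helper40.JT.STR`, CNT: `Pool.Agent.Helper61.DT.cnt`; compare
`Pool.Agent.Helper10.JT.GTJ`.)

Proof. CHN for the family of the predicates `φ y = ts F t k g (hv ∘ a) c (fun u => ip Y m y u)`, with
`w < P`, `c`, and `g` a tuple of lists of width `t` and length `≤ s` over `Fin P`: their number is at
most `P 2^ρ ((2 (2P+1)^t + 1)^s)^r ≤ errI P r s t ρ D kV J` (as `(kV+1)^D J ≥ 1`). `φ y` depends only on
`y % 2^m` (IPC (4), or directly), so `|pr (y : Fin (R l), φ y) - pr (y : Fin (2^m), φ y)| ≤ 2^m / R l`. -/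
def GapStmt : Prop := ∀ (Y : ℕ → Bool) (m P e q r ρ n t s D kV J l : ℕ) (R d k M : ℕ → ℕ)
  (κ δ ε : ℝ) (F : (Fin r → Bool) → Bool → (Fin ρ → ZMod 2) → Bool) (a : Fin ρ → Fin n → ZMod 2),
  0 < P → 0 < q → 0 < J → 0 < δ → 0 ≤ ε → M 0 = q → (∀ j, M (j + 1) = R j) →
  (∀ j ≤ l, (R j).Prime ∧ M j ≤ R j ∧ 2 * k j ≤ d j ∧
    ((k j : ℝ) ^ 2 / (M j * δ ^ 2)) ^ k j ≤ ε) →
  pr (fun θ : Fin (Zl R d (l + 1)) =>
      ¬ GoodA Y m P e q t s κ ((l + 1) * δ + 2 ^ m / R l) F a
        fun i => ch R d θ i (l + 1)) ≤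
    (l + 1) * (errI P r s t ρ D kV J * ε)

/-- **GBP.** The same for the tests in the second string. (May assume `DetStmt`, `ThrStmt`; see
GAP.)

Proof. `Y` is good. Data: `w < P`, `c`, a tuple `G` of lists of width `t` and length `≤ s` over
`Fin P`, a set `V'` of at most `D` elements of `VV`; there are at most `P 2^ρ ((2 (2P+1)^t + 1)^s)^r
(kV + 1)^D` of them. For each of them let `Θ u` be `th Y m P e w t κ F g a c u` for one (any) tuple `g` with
`Wid t (g j)`, `(g j).length ≤ s`, `GoodW P e D w μ a (varsJ g)`, `ren π (g j) = G j` for all `j`,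
`varsJ g ∩ VV = V'`, if there is one, and `0` otherwise. By DET (with `|varsJ g| ≤ r (t s) ≤ D`, RNJ) every
`th` in question is one of these functions (`ren` keeps lengths, and does not increase widths). CHN
for the family of the predicates `φ y = (j/J ≤ Θ y)`, `1 ≤ j ≤ J`; `Θ y` depends only on `y % 2^m`
(IPC (4)). Then THR. -/
def GbpStmt : Prop := ∀ (Y : ℕ → Bool) (m P e q r ρ n t s D kV J l : ℕ) (R d k M : ℕ → ℕ)
  (κ δ ε μ : ℝ) (F : (Fin r → Bool) → Bool → (Fin ρ → ZMod 2) → Bool)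
  (a : Fin ρ → Fin n → ZMod 2), 0 < P → 0 < q → 0 < J → 0 < δ → 0 ≤ ε → r * (t * s) ≤ D →
  GoodY Y m P e D μ a → (VV P e D μ a).card ≤ kV → M 0 = q → (∀ j, M (j + 1) = R j) →
  (∀ j ≤ l, (R j).Prime ∧ M j ≤ R j ∧ 2 * k j ≤ d j ∧
    ((k j : ℝ) ^ 2 / (M j * δ ^ 2)) ^ k j ≤ ε) →
  pr (fun θ : Fin (Zl R d (l + 1)) =>
      ¬ GoodB Y m P e q t s D κ ((l + 1) * δ + 2 ^ m / R l + 1 / J) μ F a
        fun i => ch R d θ i (l + 1)) ≤
    (l + 1) * (errI P r s t ρ D kV J * ε)

/-! ### Assembly of the analysis -/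

/-- **FOM.** One part. (May assume `UniStmt`, `RnmStmt`, `WgdStmt`; use BRJ:
`Pool.Agent.Helper88.JT.brj`, RNJ; compare FOJ: `Pool.Agent.Helper17.JT.FOJ`.)

Proof. Let `g` be the tuple from BRJ for `f` (with `k = κ / 2^t`), `(g j).length ≤ s`,
`|varsJ g| ≤ r (t s) ≤ D`, `pr (BadJ t κ g) ≤ r ((s+1)(κ^(1-η) (2/η)^t)) =: β`. The tests
`T_b x = ts (Fb H b) t κ g a c x` satisfy: `T_false x` implies that `H (ev f x) (...)` is true, and this
implies `T_true x`; and `pr T_true ≤ pr (H ... = true) + β`, `pr (H ... = true) ≤ pr T_false + β`. For a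
`w` with `GoodW P e D w μ a (varsJ g)` (all but a fraction `D² e/P + D μ`, WGD): for a fixed second index
`i'` let `s v = ip Y m (z i') v`; by RNM and `GoodA` the probability of `T_b` over the first index `i` is
`pr (y : Fin (2^m), T_b (gb Y m P e y (z i') w))` up to `δ`, that is `th ... (z i')` up to `δ`. The average
over `i'` is `av (u, th ... u)` up to `δ'` by `GoodB`, and this is `pr T_b` by UNI. Average over `w`. -/
def FomStmt : Prop := ∀ (n P q r ρ t s D m e : ℕ) (η κ δ δ' μ : ℝ)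
  (H : (Fin r → Bool) → (Fin ρ → ZMod 2) → Bool) (Y : ℕ → Bool) (z : ℕ → ℕ)
  (a : Fin ρ → Fin n → ZMod 2), P.Prime → 0 < q → 0 < η → η ≤ 1 → 0 < κ →
  (2 / η) ^ t ≤ s * (κ / 2 ^ t) ^ η → n ≤ 2 ^ e → 0 ≤ μ → 0 ≤ δ → 0 ≤ δ' → r * (t * s) ≤ D →
  GoodY Y m P e D μ a →
  (∀ b : Bool, GoodA Y m P e q t s κ δ (Fb H b) a z ∧ GoodB Y m P e q t s D κ δ' μ (Fb H b) a z) →
  ∀ (f : Fin r → DL (Fin n)) (c : Fin ρ → ZMod 2), (∀ j, Wid t (f j)) →
    |pr (fun p : Fin q × Fin q × Fin P =>
        H (fun j => ev (f j) fun v => gb Y m P e (z p.1) (z p.2.1) p.2.2 v)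
          (fun i => dot (a i) (fun v => gb Y m P e (z p.1) (z p.2.1) p.2.2 v) + c i) = true) -
      pr (fun x : Fin n → Bool =>
        H (fun j => ev (f j) x) (fun i => dot (a i) x + c i) = true)| ≤
      δ + δ' + ((D : ℝ) ^ 2 * e / P + D * μ) + r * ((s + 1) * (κ ^ (1 - η) * (2 / η) ^ t))

/-- **HYM.** The hybrid argument. (Adapt `Pool.Agent.Helper46.JT.HYJ`, `Pool.Agent.Helper32.DT.HYB`.)

Proof. As HYJ: fix the values outside the part `j`; the lists become lists of width `t`, and the form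
`a i` becomes its restriction to the part plus the constant `c i = ∑_{h v ≠ j} a i v * (value)`. -/
def HymStmt : Prop := ∀ (n K t r ρ : ℕ) (S : Type) [Fintype S] [Nonempty S] (G : S → Fin n → Bool)
  (δ : ℝ) (H : (Fin r → Bool) → (Fin ρ → ZMod 2) → Bool) (a : Fin ρ → Fin n → ZMod 2)
  (h : Fin n → Fin K), 0 ≤ δ →
  (∀ (j : Fin K) (f : Fin r → DL (Fin n)) (c : Fin ρ → ZMod 2), (∀ i, Wid t (f i)) →
    |pr (fun s => H (fun i => ev (f i) (G s))
        (fun i => dot (fun v => if h v = j then a i v else 0) (G s) + c i) = true) -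
      pr (fun x : Fin n → Bool => H (fun i => ev (f i) x)
        (fun i => dot (fun v => if h v = j then a i v else 0) x + c i) = true)| ≤ δ) →
  ∀ f : Fin r → DL (Fin n),
    (∀ i, ∀ e ∈ f i, ∀ j, (e.1.filter fun p => h p.1 = j).card ≤ t) →
    |pr (fun s : Fin K → S => H (fun i => ev (f i) fun v => G (s (h v)) v)
        (fun i => dot (a i) fun v => G (s (h v)) v) = true) -
      pr (fun x : Fin n → Bool => H (fun i => ev (f i) x) (fun i => dot (a i) x) = true)| ≤ K * δ

/-- **TOM.** The generator for a given partition. (May assume `VvcStmt`, `GypStmt`, `GapStmt`,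
`GbpStmt`, `FomStmt`, `HymStmt`; compare TOJ: `Pool.Agent.Helper65.JT.TOJ`.)

Proof. For `j < K` let `a_j i v = a i v` if `h v = j` and `0` otherwise; VVC gives `|VV| ≤ kV` for
each of these tuples of forms. By GYP, `GoodY (Yf ...)` holds for all the `a_j` but for a fraction
`≤ K errY` of the pairs of seeds. For such a `Y`, by GAP and GBP (for `F = Fb H false`, `Fb H true`), the
numbers of the chain are good for all `a_j` and both `F` but for a fraction
`≤ K 4 (l+1) errI ε` of the `θ`. For good `Y`, `θ` the generator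
`G s = fun v => gb Y m P e (z (s / (q P))) (z (s / P % q)) (s % P) v`, `s < q (q P)`, which is the one of
FOM (`finProdFinEquiv`; `s / (q P) < q`, `s / P % q`, `s % P` are independent and uniform), satisfies the
hypothesis of HYM with the error `errP`. For the others the difference is at most `1`. -/
def TomStmt : Prop := ∀ (n K t e P q r ρ s D m kk kV T J l : ℕ) (R d k M : ℕ → ℕ)
  (η κ δ ε μ : ℝ) (H : (Fin r → Bool) → (Fin ρ → ZMod 2) → Bool), P.Prime → 0 < K → 0 < q →
  n ≤ 2 ^ e → 0 < δ → 0 ≤ ε → 0 ≤ μ → 0 < J → 0 < kV → 1 ≤ kk → n + m ≤ T → P + m ≤ T →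
  ((ρ * D : ℕ) : ℝ) * P + (kV : ℝ) ^ 2 * e ≤ kV * μ * P →
  r * (t * s) ≤ D → M 0 = q → (∀ j, M (j + 1) = R j) →
  (∀ j ≤ l, (R j).Prime ∧ M j ≤ R j ∧ 2 * k j ≤ d j ∧
    ((k j : ℝ) ^ 2 / (M j * δ ^ 2)) ^ k j ≤ ε) →
  0 < η → η ≤ 1 → 0 < κ → (2 / η) ^ t ≤ s * (κ / 2 ^ t) ^ η →
  ∀ (h : ℕ → ℕ), (∀ v, h v < K) → ∀ (f : Fin r → DL (Fin n)) (a : Fin ρ → Fin n → ZMod 2),
    (∀ i, ∀ g ∈ f i, ∀ j < K, (g.1.filter fun p => h p.1 = j).card ≤ t) →
    |pr (fun z : (Fin (Qk kk) × Fin (Qk kk)) × Fin (Zl R d (l + 1)) × (Fin K → Fin (q * (q * P))) =>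
        H (fun i => ev (f i) fun v => cnm (Yf kk z.1.1 z.1.2) m P e q
            (fun x => ch R d z.2.1 x (l + 1)) h (ext z.2.2) v)
          (fun i => dot (a i) fun v => cnm (Yf kk z.1.1 z.1.2) m P e q
            (fun x => ch R d z.2.1 x (l + 1)) h (ext z.2.2) v) = true) -
      pr (fun x : Fin n → Bool => H (fun i => ev (f i) x) (fun i => dot (a i) x) = true)| ≤
      K * errY P m ρ D kV T (Qk kk) + K * (4 * ((l + 1) * (errI P r s t ρ D kV J * ε))) +
        K * errP P m e D J (R l) r s t l η κ δ μ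

/-- **TBM.** Dropping the unbalanced terms. (Adapt `Pool.Agent.Helper86.JT.TBJ`, where `H` does not
depend on the coins.)

Proof. As TBJ: for fixed coins the two values can differ only if for some `i` the first satisfied
entry of `f i` is not balanced. -/
def TbmStmt : Prop := ∀ (n P K t e W r : ℕ), P.Prime → 0 < K → K ≤ P → n ≤ 2 ^ e →
  ∀ (H : (Fin r → Bool) → (Fin n → Bool) → Bool) (f : Fin r → DL (Fin n)), (∀ i, Wid W (f i)) →
    |pr (fun z : (Fin (t + 2) → Fin P) × (Fin n → Bool) =>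
        H (fun i => ev ((f i).filter (bal K t (pt P K t e (ext z.1)))) z.2) z.2 = true) -
      pr (fun x => H (fun i => ev (f i) x) x = true)| ≤
    r * ((W : ℝ) ^ 2 * e / P + (W.choose (t + 1)) * 2 ^ (t + 1) / (K : ℝ) ^ t)

/-- **TGM.** The total error. (May assume `TomStmt`, `TbmStmt`; compare TGJ:
`Pool.Agent.Helper51.JT.TGJ`.)

Proof. For each `A'` put `h = pt P K t e (ext A')` (values `< K`) and filter the lists by
`bal K t h`; TOM for the filtered lists. Average over `A'` (`av_prod`), then TBM. -/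
def TgmStmt : Prop := ∀ (n W K t e P q r ρ s D m kk kV T J l : ℕ) (R d k M : ℕ → ℕ)
  (η κ δ ε μ : ℝ) (H : (Fin r → Bool) → (Fin ρ → ZMod 2) → Bool) (f : Fin r → DL (Fin n))
  (a : Fin ρ → Fin n → ZMod 2), (∀ i, Wid W (f i)) → P.Prime → 0 < K → K ≤ P → 0 < q →
  n ≤ 2 ^ e → 0 < δ → 0 ≤ ε → 0 ≤ μ → 0 < J → 0 < kV → 1 ≤ kk → n + m ≤ T → P + m ≤ T →
  ((ρ * D : ℕ) : ℝ) * P + (kV : ℝ) ^ 2 * e ≤ kV * μ * P →
  r * (t * s) ≤ D → M 0 = q → (∀ j, M (j + 1) = R j) →
  (∀ j ≤ l, (R j).Prime ∧ M j ≤ R j ∧ 2 * k j ≤ d j ∧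
    ((k j : ℝ) ^ 2 / (M j * δ ^ 2)) ^ k j ≤ ε) →
  0 < η → η ≤ 1 → 0 < κ → (2 / η) ^ t ≤ s * (κ / 2 ^ t) ^ η →
  |pr (fun z : (Fin (t + 2) → Fin P) × (Fin (Qk kk) × Fin (Qk kk)) × Fin (Zl R d (l + 1)) ×
        (Fin K → Fin (q * (q * P))) =>
      H (fun i => ev ((f i).filter (bal K t (pt P K t e (ext z.1)))) fun v =>
          cnm (Yf kk z.2.1.1 z.2.1.2) m P e q (fun x => ch R d z.2.2.1 x (l + 1))
            (pt P K t e (ext z.1)) (ext z.2.2.2) v)
        (fun i => dot (a i) fun v =>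
          cnm (Yf kk z.2.1.1 z.2.1.2) m P e q (fun x => ch R d z.2.2.1 x (l + 1))
            (pt P K t e (ext z.1)) (ext z.2.2.2) v) = true) -
    pr (fun x : Fin n → Bool => H (fun i => ev (f i) x) (fun i => dot (a i) x) = true)| ≤
  r * ((W : ℝ) ^ 2 * e / P + (W.choose (t + 1)) * 2 ^ (t + 1) / (K : ℝ) ^ t) +
    (K * errY P m ρ D kV T (Qk kk) + K * (4 * ((l + 1) * (errI P r s t ρ D kV J * ε))) +
      K * errP P m e D J (R l) r s t l η κ δ μ)

end Pool.Agent.Helper15.AF
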