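import Pool.Agent.Helper15.AF.Goals2

/-!
# Project AF: the parameters, with proofs in words

`b = bb a e = (e+1)(e+2)(a+5)`, `t = tj a e L = ⌊log₂ L / b⌋`, `U = Uj a e L = 2 ^ ((e+1)(a+5) t)`,
`D = Dj a e L`, `s = sj a e L = 2 ^ (t (a+1))`, `C = cM c = 2 c + 10` (the constant for which the old
parameters are used), `P = Pj C L`, `q = qj C L`, `K = Kj C a β e L`, `m = mj a e L = D * 2 ^ t`,
`ρ = r * C0j c L`. Tools: `TljStmt` (`Pool.Agent.Helper3.JT.tlj`), PJ1, ..., PJ6, PJB (JT/Goals2, proved,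
see `JT/Final.lean`), `npr` in `DT/Final.lean`. From TLJ: `L < 2 ^ (b (t+1))`, `U ^ (e+2) ≤ L`,
`r ≤ L`, `r (t s) ≤ D`, `t → ∞`, and for large `L`: `D * 2 ^ (2 t) ≤ U ^ (e+1)`, `D ≤ L`. From PJ4: `K ≤ L²`.
-/

namespace Pool.Agent.Helper15.AF

open Pool.Agent.Helper81.CC Pool.Agent.Helper51.ZP Pool.Agent.Helper78.DT Pool.Agent.Helper78.JT
open scoped Classical

/-- **PM1.** Sizes.

Proof. (1) `log₂ L + 1 ≤ b (t+1)`, so `C0j c L ≤ (c+2) b (t+1) ≤ t 2^(t (a+1)) = t s` for large `t`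
(`a ≥ 1`), and `r (t s) ≤ D`. (2) `m = D 2^t ≤ D 2^(2t) ≤ U^(e+1) ≤ L ≤ 2^L`. (3) `P ≤ 2 L^(C+8) ≤ 2^L`
for large `L`, and `2^L + m ≤ 2^(L+2)`. (4) `ρ D ≤ D² ≤ L²`, `kV μ = 2 L²`, `kV² L = 4 L^(2c+13) ≤ L² P`
since `P ≥ L^(2c+18)`. (5) `2^(C0) ≥ L^(c+2)` as `2^(log₂ L + 1) ≥ L`; `r ≤ L`; `L ≥ 64`. -/
def Pm1Stmt : Prop := ∀ c a e : ℕ, 1 ≤ a → ∃ L0, ∀ L ≥ L0, ∀ r : ℕ, r ^ (e + 1) ≤ L ^ e →
  r * C0j c L ≤ Dj a e L ∧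
  (mj a e L ≤ L ∧ 2 ^ L + mj a e L ≤ 2 ^ (L + 2)) ∧
  Pj (cM c) L + mj a e L ≤ 2 ^ (L + 2) ∧
  ((r * C0j c L * Dj a e L : ℕ) : ℝ) * Pj (cM c) L + (kVj c L : ℝ) ^ 2 * L ≤
    kVj c L * μj c L * Pj (cM c) L ∧
  (r : ℝ) / 2 ^ C0j c L ≤ 1 / (64 * (L : ℝ) ^ c)

/-- **PM2.** The error for `GoodY`. (May assume `Pm1Stmt`.)

Proof. `2^ρ ≤ 2^D`, `kV + 1 ≤ 4 L^(c+6) ≤ 4 L^(C+8)`, `P + 1 ≤ 4 L^(C+8)`, and
`4 L^(C+8) ≤ 2^(2 + (C+8) b (t+1))`. So the first factor of `errY` is at most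
`2 P 2^D 2^(D (2 + (C+8) b (t+1)))`. Second factor: `T + 1 = 2^(L+2) + 1 ≤ 2^(L+3)`, `Q = 2^(8L) - 1 ≥
2^(8L-1)`, so `(T+1)/Q ≤ 2^(4 - 7L) ≤ 2^(-m)` because `m ≤ L`, `L ≥ 1`; the factor is `≤ 2 · 2^(-m)`. With
`K ≤ L²`, `2 P ≤ 4 L^(C+8)`, everything is at most `2^(E - m)` with
`E = (C + 10) b (t+1) + 3 + D (3 + (C+8) b (t+1))`, and `E + 6 + c b (t+1) ≤ D 2^t = m` for large `t`
(`D ≥ 1`). -/
def Pm2Stmt : Prop := ∀ c a e β : ℕ, 1 ≤ a → ∃ L0, ∀ L ≥ L0, ∀ r : ℕ, r ^ (e + 1) ≤ L ^ e →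
  (Kj (cM c) a β e L : ℝ) * errY (Pj (cM c) L) (mj a e L) (r * C0j c L) (Dj a e L) (kVj c L)
    (2 ^ (L + 2)) (Qk (8 * L)) ≤ 1 / (64 * (L : ℝ) ^ c)

/-- **PM3.** The error for the pool. (May assume `Pm1Stmt`; compare PJ3: `Pool.Agent.Helper5.JT.PJ3`.)

Proof. As in PJ3: `2 P + 1 ≤ 2^p`, `p = (C+8) b (t+1) + 3`, `2 (2P+1)^t + 1 ≤ 2^(p t + 2)`, `s r ≤ D` for
`t ≥ 1`; `2^ρ ≤ 2^D`, `(kV+1)^D ≤ 2^(D (2 + (c+6) b (t+1)))`, `J = L^(c+3) ≤ 2^((c+3) b (t+1))`,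
`P ≤ 2^p`, `K ≤ 2^(2 b (t+1))`, `4 (e+1) ≤ 2^(e+2)`. So it suffices that the sum of all these
exponents and of `6 + c b (t+1)` is `≤ U^(e+1)`; it is at most `D` times a polynomial in `t`, so at
most `D 2^(2t)` for large `t`. -/
def Pm3Stmt : Prop := ∀ c a e β : ℕ, 1 ≤ a → ∃ L0, ∀ L ≥ L0, ∀ r : ℕ, r ^ (e + 1) ≤ L ^ e →
  (Kj (cM c) a β e L : ℝ) * (4 * (((e : ℝ) + 1) *
    (errI (Pj (cM c) L) r (sj a e L) (tj a e L) (r * C0j c L) (Dj a e L) (kVj c L) (Jj c L) *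
      εj a e L))) ≤ 1 / (64 * (L : ℝ) ^ c)

/-- **PM4.** The error of the parts. (May assume `Pm1Stmt`; use PJ4, PJ5 for the constant `cM c`:
`pj4S`, `Pool.Agent.Helper34.JT.pj5`.)

Proof. The six summands (times `K ≤ L²`): `2 K (e+1) δj C L = 2 K (e+1) / (64 L^(C+3))`;
`2 K 2^m / R e ≤ 2 L² 2^(D 2^t - U^(e+1))` with `R e ≥ 2^(U^(e+1))`, `U^(e+1) ≥ D 2^(2t)`, so the exponent is
`≤ -D 2^t` for `t ≥ 1`, and `2 L² 64 L^c ≤ 2^(7 + (c+2) b (t+1)) ≤ 2^(D 2^t)` for large `t`;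
`K / J ≤ L²/L^(c+3)`; `K D² L / P ≤ L^5 / L^(C+8)`; `K D μ ≤ L³/L^(c+4)`; the last one is PJ5. Each is
at most `1/(64 L^c)` for large `L`. -/
def Pm4Stmt : Prop := ∀ c a e β : ℕ, 1 ≤ a →
  2 * a + 3 + 2 * (cM c + 3) * bb a e + 7 ≤ 2 ^ (a - 1) → ∃ L0, ∀ L ≥ L0, ∀ r : ℕ,
    r ^ (e + 1) ≤ L ^ e →
    (Kj (cM c) a β e L : ℝ) * errP (Pj (cM c) L) (mj a e L) L (Dj a e L) (Jj c L) (Rj a e L e) r
      (sj a e L) (tj a e L) e (ηp a) (κj a e L) (δj (cM c) L) (μj c L) ≤ 6 / (64 * (L : ℝ) ^ c)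

/-- **PMA.** The choice of the parameters. (May assume `Pm1Stmt`, ..., `Pm4Stmt`; compare PJA:
`Pool.Agent.Helper51.JT.PJA`.)

Proof. As PJA for the constant `cM c`: `a ≥ 1` with `2 a + 3 + 2 (cM c + 3) (bb a e) + 7 ≤ 2^(a-1)`,
`β = 2 (bb a e) (cM c + 2) + 1`. The side conditions are PJ6, PJ4, TLJ (for `cM c`) and PM1; the
errors are PJ1, PJ2 (each `≤ 1/(64 L^(cM c)) ≤ 1/(64 L^c)`), PM2, PM3, PM4 and the last clause of PM1: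
together at most `11/(64 L^c) < 1/(2 L^c)`. -/
def PmaStmt : Prop := ∀ c e : ℕ, ∃ a β L0 : ℕ, ∀ L ≥ L0, ∀ r : ℕ, r ^ (e + 1) ≤ L ^ e →
  (Pj (cM c) L).Prime ∧ 0 < Kj (cM c) a β e L ∧ Kj (cM c) a β e L ≤ Pj (cM c) L ∧
  0 < qj (cM c) L ∧ 0 < δj (cM c) L ∧ 0 ≤ εj a e L ∧ 0 ≤ μj c L ∧ 0 < Jj c L ∧ 0 < kVj c L ∧
  1 ≤ 8 * L ∧ 2 ^ L + mj a e L ≤ 2 ^ (L + 2) ∧ Pj (cM c) L + mj a e L ≤ 2 ^ (L + 2) ∧
  ((r * C0j c L * Dj a e L : ℕ) : ℝ) * Pj (cM c) L + (kVj c L : ℝ) ^ 2 * L ≤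
    kVj c L * μj c L * Pj (cM c) L ∧
  r * (tj a e L * sj a e L) ≤ Dj a e L ∧
  (∀ j ≤ e, (Rj a e L j).Prime ∧ Mj (cM c) a e L j ≤ Rj a e L j ∧
    2 * kj a e L j ≤ dj a e L j ∧
    ((kj a e L j : ℝ) ^ 2 / (Mj (cM c) a e L j * δj (cM c) L ^ 2)) ^ kj a e L j ≤ εj a e L) ∧
  0 < ηp a ∧ ηp a ≤ 1 ∧ 0 < κj a e L ∧
  (2 / ηp a) ^ tj a e L ≤ sj a e L * (κj a e L / 2 ^ tj a e L) ^ ηp a ∧
  ((r : ℝ) * ((WW (cM c) L : ℝ) ^ 2 * L / Pj (cM c) L +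
      ((WW (cM c) L).choose (tj a e L + 1)) * 2 ^ (tj a e L + 1) /
        (Kj (cM c) a β e L : ℝ) ^ tj a e L) +
    (Kj (cM c) a β e L * errY (Pj (cM c) L) (mj a e L) (r * C0j c L) (Dj a e L) (kVj c L)
        (2 ^ (L + 2)) (Qk (8 * L)) +
      Kj (cM c) a β e L * (4 * (((e : ℝ) + 1) *
        (errI (Pj (cM c) L) r (sj a e L) (tj a e L) (r * C0j c L) (Dj a e L) (kVj c L) (Jj c L) *
          εj a e L))) +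
      Kj (cM c) a β e L * errP (Pj (cM c) L) (mj a e L) L (Dj a e L) (Jj c L) (Rj a e L e) r
        (sj a e L) (tj a e L) e (ηp a) (κj a e L) (δj (cM c) L) (μj c L))) +
    (r : ℝ) / 2 ^ C0j c L < 1 / (2 * (L : ℝ) ^ c)

/-- **PMB.** The number of the seeds is at most `2 ^ (C L)`. (Adapt PJB:
`Pool.Agent.Helper73.JT.PJB`, for the constant `cM c`.)

Proof. As PJB; the last power is `(q (q P))^K`, with `q (q P) ≤ 2^(37) L^(5 C' + ...)`, so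
`(q (q P))^K ≤ 2^(C'' L)` as before (`K (t+1) ≤ const L`, `q (q P) ≤ 2^(const (t+1))`). The factor
`Qk (8 L) * Qk (8 L)` is the same on both sides. -/
def PmbStmt : Prop := ∀ c a e β : ℕ, ∃ C L0 : ℕ, ∀ L ≥ L0, ∀ cap : ℕ, 2 ^ (C * L) ≤ cap →
  Zcm cap c a β e L = ZZm c a β e L

end Pool.Agent.Helper15.AF
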