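import Pool.Agent.Helper26.AF.Goals3

/-!
Project AF, packet WIN.
-/

set_option autoImplicit false

namespace Pool.Agent.Helper15.AF

open Pool.Agent.Helper26.AF
open Finset Filter Topology

theorem desc_bound (a n : ℕ) (han : a ≤ n) (j : ℕ) :
    a.descFactorial j * n ^ j ≤ a ^ j * n.descFactorial j := by
  induction j with
  | zero => simp
  | succ j ih =>
    rw [Nat.descFactorial_succ, Nat.descFactorial_succ, pow_succ, pow_succ]
    have h1 : (a - j) * n ≤ a * (n - j) := by
      rw [Nat.sub_mul, Nat.mul_sub]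
      apply Nat.sub_le_sub_left
      rw [mul_comm j n]
      exact Nat.mul_le_mul_right j han
    calc (a - j) * a.descFactorial j * (n ^ j * n)
        = ((a - j) * n) * (a.descFactorial j * n ^ j) := by ring
      _ ≤ (a * (n - j)) * (a ^ j * n.descFactorial j) := Nat.mul_le_mul h1 ih
      _ = a ^ j * a * ((n - j) * n.descFactorial j) := by ring

theorem choose_bound (a n : ℕ) (han : a ≤ n) (j : ℕ) :
    a.choose j * n ^ j ≤ a ^ j * n.choose j := by
  have h := desc_bound a n han j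
  rw [Nat.descFactorial_eq_factorial_mul_choose, Nat.descFactorial_eq_factorial_mul_choose] at h
  have h2 : j.factorial * (a.choose j * n ^ j) ≤ j.factorial * (a ^ j * n.choose j) := by
    calc j.factorial * (a.choose j * n ^ j) = j.factorial * a.choose j * n ^ j := by ring
      _ ≤ a ^ j * (j.factorial * n.choose j) := h
      _ = _ := by ring
  exact Nat.le_of_mul_le_mul_left h2 (Nat.factorial_pos j)

theorem exp_bound {p : ℝ} (h0 : 0 ≤ p) (h1 : p ≤ 1 / 3) : Real.exp (-(p + p ^ 2)) ≤ 1 - p := by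
  have hx : 0 ≤ p + p ^ 2 := by positivity
  have h2 := Real.quadratic_le_exp_of_nonneg hx
  rw [Real.exp_neg]
  have h3 : (0 : ℝ) < 1 - p := by linarith
  rw [inv_le_comm₀ (Real.exp_pos _) h3]
  refine le_trans ?_ h2
  rw [inv_le_iff_one_le_mul₀ h3]
  nlinarith [mul_nonneg h0 h0, mul_nonneg (mul_nonneg h0 h0) (by linarith : (0 : ℝ) ≤ 1 / 3 - p),
    mul_nonneg (mul_nonneg (mul_nonneg h0 h0) h0) h3.le]

theorem goalWIN : StmtWIN := by
  intro l c hc
  have t1 : Tendsto (fun n : ℕ => (n : ℝ) ^ ((1 : ℝ) / 3)) atTop atTop :=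
    (tendsto_rpow_atTop (by norm_num)).comp tendsto_natCast_atTop_atTop
  filter_upwards [t1.eventually_ge_atTop (max |l| (max (2 * c) 2)), eventually_gt_atTop 0]
    with n hn hn0 k k' hk hk' hkc hkc'
  set a : ℝ := (n : ℝ) ^ ((1 : ℝ) / 3) with ha
  have hn0' : (0 : ℝ) < n := by exact_mod_cast hn0
  have hapos : 0 < a := Real.rpow_pos_of_pos hn0' _
  have ha3 : (n : ℝ) = a ^ 3 := by
    rw [ha, ← Real.rpow_natCast, ← Real.rpow_mul hn0'.le]
    norm_num
  have ha2 : (n : ℝ) ^ ((2 : ℝ) / 3) = a ^ 2 := by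
    rw [ha, ← Real.rpow_natCast, ← Real.rpow_mul hn0'.le]
    norm_num
  have hal : |l| ≤ a := (le_max_left _ _).trans hn
  have hac : 2 * c ≤ a := ((le_max_left _ _).trans (le_max_right _ _)).trans hn
  have ha22 : 2 ≤ a := ((le_max_right _ _).trans (le_max_right _ _)).trans hn
  rw [ha2] at hkc hkc'
  set p : ℝ := pc l n with hp
  have hpe : p = 1 / a ^ 3 + l / a ^ 4 := by
    rw [hp]
    unfold pc
    rw [← ha, ha3]
    field_simp
  have hla : |l / a| ≤ 1 := by
    rw [abs_div, abs_of_pos hapos]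
    exact (div_le_one hapos).mpr hal
  have hpe2 : p = (1 + l / a) / a ^ 3 := by
    rw [hpe]
    field_simp
  have ha3pos : 0 < a ^ 3 := by positivity
  have hp0 : 0 ≤ p := by
    rw [hpe2]
    apply div_nonneg _ ha3pos.le
    linarith [(abs_le.mp hla).1]
  have hp2 : p ≤ 2 / a ^ 3 := by
    rw [hpe2]
    apply div_le_div_of_nonneg_right _ ha3pos.le
    linarith [(abs_le.mp hla).2]
  have ha8 : (8 : ℝ) ≤ a ^ 3 := by
    calc (8 : ℝ) = 2 ^ 3 := by norm_num
      _ ≤ a ^ 3 := pow_le_pow_left₀ (by norm_num) ha22 3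
  have hp3 : p ≤ 1 / 3 := by
    refine hp2.trans ?_
    rw [div_le_iff₀ ha3pos]
    linarith
  -- the product
  set K : ℝ := (k : ℝ) * k' with hK
  have hK0 : 0 ≤ K := by positivity
  have hKc : K ≤ c ^ 2 * a ^ 4 := by
    calc K ≤ (c * a ^ 2) * (c * a ^ 2) := by
          apply mul_le_mul hkc hkc' (by positivity) (by positivity)
      _ = c ^ 2 * a ^ 4 := by ring
  have e1 : K * (p - 1 / a ^ 3) ≤ |l| * c ^ 2 := by
    have : p - 1 / a ^ 3 = l / a ^ 4 := by rw [hpe]; ring
    rw [this]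
    calc K * (l / a ^ 4) ≤ K * (|l| / a ^ 4) := by
          apply mul_le_mul_of_nonneg_left _ hK0
          apply div_le_div_of_nonneg_right (le_abs_self l)
          positivity
      _ ≤ (c ^ 2 * a ^ 4) * (|l| / a ^ 4) := by
          apply mul_le_mul_of_nonneg_right hKc
          positivity
      _ = |l| * c ^ 2 := by
          field_simp
  have e2 : K * p ^ 2 ≤ 1 := by
    have h1 : p ^ 2 ≤ (2 / a ^ 3) ^ 2 := pow_le_pow_left₀ hp0 hp2 2
    calc K * p ^ 2 ≤ (c ^ 2 * a ^ 4) * (2 / a ^ 3) ^ 2 := by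
          apply mul_le_mul hKc h1 (by positivity) (by positivity)
      _ = (2 * c) ^ 2 / a ^ 2 := by
          field_simp
      _ ≤ 1 := by
          rw [div_le_one (by positivity)]
          exact pow_le_pow_left₀ (by positivity) hac 2
  -- the binomial coefficients
  have hb : ((n - k).choose k' : ℝ) ≤ Real.exp (-(K / a ^ 3)) * (n.choose k' : ℝ) := by
    have h1 := choose_bound (n - k) n (Nat.sub_le n k) k'
    have h2 : ((n - k).choose k' : ℝ) * (n : ℝ) ^ k' ≤ ((n - k : ℕ) : ℝ) ^ k' * (n.choose k' : ℝ) := by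
      exact_mod_cast h1
    have h3 : ((n - k : ℕ) : ℝ) ≤ n * Real.exp (-((k : ℝ) / n)) := by
      by_cases hkn : k ≤ n
      · rw [Nat.cast_sub hkn]
        have h4 := Real.add_one_le_exp (-((k : ℝ) / n))
        calc (n : ℝ) - k = n * (-((k : ℝ) / n) + 1) := by
              field_simp
              ring
          _ ≤ _ := mul_le_mul_of_nonneg_left h4 hn0'.le
      · have : n - k = 0 := by omega
        rw [this]
        simp only [Nat.cast_zero]
        positivity
    have h5 : ((n - k).choose k' : ℝ) * (n : ℝ) ^ k' ≤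
        (Real.exp (-(K / a ^ 3)) * (n.choose k' : ℝ)) * (n : ℝ) ^ k' := by
      refine h2.trans ?_
      have h6 : ((n - k : ℕ) : ℝ) ^ k' ≤ (n * Real.exp (-((k : ℝ) / n))) ^ k' :=
        pow_le_pow_left₀ (Nat.cast_nonneg _) h3 _
      have h7 : (n * Real.exp (-((k : ℝ) / n))) ^ k' = (n : ℝ) ^ k' * Real.exp (-(K / a ^ 3)) := by
        rw [mul_pow, ← Real.exp_nat_mul, ← ha3, hK]
        congr 2
        ring
      calc ((n - k : ℕ) : ℝ) ^ k' * (n.choose k' : ℝ)
          ≤ ((n : ℝ) ^ k' * Real.exp (-(K / a ^ 3))) * (n.choose k' : ℝ) := by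
            rw [← h7]
            exact mul_le_mul_of_nonneg_right h6 (Nat.cast_nonneg _)
        _ = _ := by ring
    exact le_of_mul_le_mul_right h5 (by positivity)
  have hq : Real.exp (-(K * (p + p ^ 2))) ≤ (1 - p) ^ (k * k') := by
    have h1 := exp_bound hp0 hp3
    have h2 : (Real.exp (-(p + p ^ 2))) ^ (k * k') ≤ (1 - p) ^ (k * k') :=
      pow_le_pow_left₀ (Real.exp_pos _).le h1 _
    rw [← Real.exp_nat_mul] at h2
    convert h2 using 2
    rw [hK]
    push_cast
    ring
  have hexp : Real.exp (-(K / a ^ 3)) ≤ Real.exp (|l| * c ^ 2 + 1) * (1 - p) ^ (k * k') := by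
    refine le_trans ?_ (mul_le_mul_of_nonneg_left hq (Real.exp_pos _).le)
    rw [← Real.exp_add]
    apply Real.exp_le_exp.mpr
    have : K * (p - 1 / a ^ 3) = K * p - K / a ^ 3 := by ring
    rw [this] at e1
    linarith
  exact hb.trans (mul_le_mul_of_nonneg_right hexp (Nat.cast_nonneg _))

end Pool.Agent.Helper15.AF
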